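import Pool.Agent.H922IN.Tow
import Pool.Agent.R721.CD.Exist

/-!
# The character degrees of the groups of affine maps of prime fields
-/

set_option autoImplicit false
set_option linter.unusedSectionVars false

open scoped BigOperators Classical

noncomputable section

namespace Pool.Agent.H922IN

open Pool.Agent.Helper884.IC Pool.Agent.R721.CD

/-- the affine maps `x ↦ u x + b` of `ZMod q` with `u` in `U` -/
@[ext]
structure Af (q : ℕ) (U : Subgroup (ZMod q)ˣ) : Type where
  /-- translation part -/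
  b : ZMod q
  /-- linear part -/
  u : U

namespace Af

variable {q : ℕ} {U : Subgroup (ZMod q)ˣ}

/-- the underlying set -/
def eqv : Af q U ≃ ZMod q × U where
  toFun x := (x.b, x.u)
  invFun x := ⟨x.1, x.2⟩
  left_inv _ := rfl
  right_inv _ := rfl

instance : Mul (Af q U) := ⟨fun x y => ⟨x.b + ((x.u : (ZMod q)ˣ) : ZMod q) * y.b, x.u * y.u⟩⟩

instance : One (Af q U) := ⟨⟨0, 1⟩⟩

instance : Inv (Af q U) := ⟨fun x => ⟨-((((x.u)⁻¹ : U) : (ZMod q)ˣ) : ZMod q) * x.b, x.u⁻¹⟩⟩

theorem mul_b (x y : Af q U) : (x * y).b = x.b + ((x.u : (ZMod q)ˣ) : ZMod q) * y.b := rfl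
theorem mul_u (x y : Af q U) : (x * y).u = x.u * y.u := rfl
theorem one_b : (1 : Af q U).b = 0 := rfl
theorem one_u : (1 : Af q U).u = 1 := rfl
theorem inv_b (x : Af q U) : (x⁻¹).b = -((((x.u)⁻¹ : U) : (ZMod q)ˣ) : ZMod q) * x.b := rfl
theorem inv_u (x : Af q U) : (x⁻¹).u = x.u⁻¹ := rfl

instance : Group (Af q U) where
  mul_assoc x y z := by
    ext
    · simp only [mul_b, mul_u, Subgroup.coe_mul, Units.val_mul]; ring
    · simp only [mul_u, mul_assoc]
  one_mul x := by
    ext
    · simp only [mul_b, one_b, one_u, OneMemClass.coe_one, Units.val_one]; ring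
    · simp only [mul_u, one_u, one_mul]
  mul_one x := by
    ext
    · simp only [mul_b, one_b, mul_zero, add_zero]
    · simp only [mul_u, one_u, mul_one]
  inv_mul_cancel x := by
    ext
    · simp only [mul_b, inv_b, inv_u, one_b]; ring
    · simp only [mul_u, inv_u, one_u, inv_mul_cancel]

variable [hq : Fact q.Prime]

instance : Finite (Af q U) := Finite.of_equiv _ eqv.symm

instance : Fintype (Af q U) := Fintype.ofFinite _

theorem card : Nat.card (Af q U) = q * Nat.card U := by
  rw [Nat.card_congr eqv, Nat.card_prod, Nat.card_zmod]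

/-- the linear part, as a homomorphism -/
def lin : Af q U →* U where
  toFun x := x.u
  map_one' := rfl
  map_mul' _ _ := rfl

/-- the translations -/
def tr (q : ℕ) (U : Subgroup (ZMod q)ˣ) : Subgroup (Af q U) := lin.ker

theorem mem_tr {x : Af q U} : x ∈ tr q U ↔ x.u = 1 := Iff.rfl

instance : (tr q U).Normal := MonoidHom.normal_ker _

/-- the translations form a group of order `q` -/
def trE : tr q U ≃ ZMod q where
  toFun x := x.1.b
  invFun b := ⟨⟨b, 1⟩, rfl⟩
  left_inv x := by
    apply Subtype.ext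
    ext
    · rfl
    · exact congrArg (fun z : U => ((z : (ZMod q)ˣ) : ZMod q)) (mem_tr.mp x.2).symm
  right_inv _ := rfl

theorem card_tr : Nat.card (tr q U) = q := by
  rw [Nat.card_congr trE, Nat.card_zmod]

/-- the translation by `b` -/
def T (b : ZMod q) : tr q U := ⟨⟨b, 1⟩, rfl⟩

theorem T_surj (x : tr q U) : ∃ b, x = T b := ⟨trE x, (trE.symm_apply_apply x).symm⟩

theorem T_add (a b : ZMod q) : (T (a + b) : tr q U) = T a * T b := by
  apply Subtype.ext
  ext
  · change a + b = a + ((1 : (ZMod q)ˣ) : ZMod q) * b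
    simp
  · simp [T, mul_u]

theorem T_zero : (T 0 : tr q U) = 1 := rfl

theorem conj_T (g : Af q U) (b : ZMod q) :
    (MulAut.conjNormal g (T b) : tr q U) = T (((g.u : (ZMod q)ˣ) : ZMod q) * b) := by
  apply Subtype.ext
  rw [MulAut.conjNormal_apply]
  ext
  · change (g * (⟨b, 1⟩ : Af q U) * g⁻¹).b = _
    simp only [mul_b, mul_u, inv_b, mul_one, T]
    have : ((g.u : (ZMod q)ˣ) : ZMod q) * (-((((g.u)⁻¹ : U) : (ZMod q)ˣ) : ZMod q) * g.b) = - g.b := by
      have h1 : ((g.u : (ZMod q)ˣ) : ZMod q) * ((((g.u)⁻¹ : U) : (ZMod q)ˣ) : ZMod q) = 1 := by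
        rw [Subgroup.coe_inv, Units.mul_inv]
      linear_combination (-g.b) * h1
    rw [this]
    ring
  · change (((g * (⟨b, 1⟩ : Af q U) * g⁻¹).u : (ZMod q)ˣ) : ZMod q) = _
    simp [mul_u, inv_u, T]

/-- the irreducible characters of the translations are linear -/
theorem tr_lin {θ : tr q U → ℂ} (h : IsIrrChar θ) : θ 1 = 1 ∧ ∀ x y, θ (x * y) = θ x * θ y := by
  have h1 := dichotomy (⊥ : Subgroup (tr q U)) inferInstance (fun x y => by
    obtain ⟨a, rfl⟩ := T_surj x
    obtain ⟨b, rfl⟩ := T_surj y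
    rw [Subgroup.mem_bot, mul_inv_eq_one, mul_inv_eq_iff_eq_mul, ← T_add, ← T_add, add_comm]) h
  rcases h1 with h1 | h1
  · exfalso
    rw [Finset.sum_eq_single 1 (fun x _ hx => if_neg (by rwa [Subgroup.mem_bot]))
      (fun hx => absurd (Finset.mem_univ _) hx), if_pos (one_mem _)] at h1
    obtain ⟨n, hn, h2⟩ := irr_deg h
    rw [h2] at h1
    have : n = 0 := by exact_mod_cast h1
    omega
  · exact ⟨h1.1, h1.2.2⟩

/-- a nontrivial irreducible character of the translations has trivial stabiliser -/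
theorem tr_free {θ : tr q U → ℂ} (h : IsIrrChar θ) {g : Af q U} (hg : g.u ≠ 1)
    (h1 : cj g θ = θ) (x : tr q U) : θ x = 1 := by
  obtain ⟨hone, hm⟩ := tr_lin h
  have hu : ((g.u : (ZMod q)ˣ) : ZMod q) - 1 ≠ 0 := by
    intro h2
    apply hg
    apply Subtype.ext
    apply Units.ext
    rw [sub_eq_zero.mp h2]
    rfl
  obtain ⟨b, rfl⟩ := T_surj x
  set c : ZMod q := b / (((g.u : (ZMod q)ˣ) : ZMod q) - 1) with hc
  have hb : b = ((g.u : (ZMod q)ˣ) : ZMod q) * c + (-c) := by
    rw [hc]
    field_simp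
    ring
  have h2 : θ (T (((g.u : (ZMod q)ˣ) : ZMod q) * c)) = θ (T c) := by
    have := congrFun h1 (T c)
    unfold cj at this
    rwa [conj_T] at this
  rw [hb, T_add, hm, h2, ← hm, ← T_add, add_neg_cancel, T_zero, hone]

theorem abel_quot (x y : Af q U) : x * y * x⁻¹ * y⁻¹ ∈ tr q U := by
  rw [mem_tr]
  simp only [mul_u, inv_u]
  rw [mul_comm x.u y.u, mul_assoc y.u, mul_inv_cancel, mul_one, mul_inv_cancel]

/-- the degrees -/
theorem deg_cases {χ : Af q U → ℂ} (h : IsIrrChar χ) :
    (χ 1 = 1 ∧ ∑ g : Af q U, (if g ∈ tr q U then χ g else 0) = q) ∨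
      (χ 1 = Nat.card U ∧ ∑ g : Af q U, (if g ∈ tr q U then χ g else 0) = 0) := by
  rcases dichotomy (tr q U) inferInstance abel_quot h with h1 | ⟨h1, h2, -⟩
  · right
    refine ⟨?_, h1⟩
    obtain ⟨m, hm0, hm⟩ := irr_deg h
    -- upper bound
    have hup : m ≤ Nat.card U := by
      obtain ⟨lam, hlam⟩ := lin_const (tr q U) ⊥ bot_le (by
          intro c _ d hd
          rw [Subgroup.mem_bot] at hd ⊢
          rw [hd]; group) (by
          intro x hx y hy
          have hT : ∀ z : tr q U, ∃ b : ZMod q, (z : Af q U) = ⟨b, 1⟩ := fun z => by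
            obtain ⟨b, hb⟩ := T_surj z
            exact ⟨b, by rw [hb]; rfl⟩
          obtain ⟨a, ha⟩ := hT ⟨x, hx⟩
          obtain ⟨b, hb⟩ := hT ⟨y, hy⟩
          simp only at ha hb
          rw [Subgroup.mem_bot, mul_inv_eq_one, mul_inv_eq_iff_eq_mul, ha, hb]
          ext
          · simp [mul_b, add_comm]
          · simp [mul_u]) h (by
          rw [Finset.sum_eq_single 1 (fun x _ hx => if_neg (by rwa [Subgroup.mem_bot]))
            (fun hx => absurd (Finset.mem_univ _) hx), if_pos (one_mem _), hm]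
          exact_mod_cast hm0.ne')
      exact deg_le (tr q U) lam h hlam hm (by rw [card, card_tr, mul_comm])
    -- lower bound
    obtain ⟨θ, hθ, hθ0⟩ := exists_below (N := tr q U) h
    have hθ' := mem_Irr.mp hθ
    have hne : ¬ ∀ x, θ x = 1 := by
      intro hx
      apply hθ0
      have h3 := mm_eq h hθ'
      have h4 : B (rs (tr q U) χ) θ = 0 := by
        unfold B rs
        simp only [hx, mul_one]
        rw [sum_N (N := tr q U) χ, h1, mul_zero]
      rw [h4] at h3
      exact_mod_cast h3.symm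
    have hlow : Nat.card U ≤ m := by
      have h3 : m = ∑ θ' ∈ Irr (tr q U), mm χ θ' := by
        have h4 := deg_mm (N := tr q U) h
        rw [hm, Finset.sum_congr rfl (g := fun θ' => ((mm χ θ' : ℕ) : ℂ))] at h4
        · exact_mod_cast h4
        · intro θ' hθ''
          rw [(tr_lin (mem_Irr.mp hθ'')).1, mul_one]
      have h5 : (Finset.univ.image fun u : U => cj (⟨0, u⟩ : Af q U) θ) ⊆ Irr (tr q U) := by
        intro x hx
        obtain ⟨u, -, rfl⟩ := Finset.mem_image.mp hx
        exact mem_Irr.mpr (cj_irr hθ' _)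
      have h6 : (Finset.univ.image fun u : U => cj (⟨0, u⟩ : Af q U) θ).card = Nat.card U := by
        rw [Finset.card_image_of_injective, Finset.card_univ, Nat.card_eq_fintype_card]
        intro u v huv
        by_contra hne'
        apply hne
        have h7 : cj ((⟨0, u⟩ : Af q U) * (⟨0, v⟩ : Af q U)⁻¹) θ = θ := by
          rw [cj_mul, show cj (⟨0, u⟩ : Af q U) θ = cj (⟨0, v⟩ : Af q U) θ from huv, ← cj_mul,
            mul_inv_cancel, cj_one]
        refine tr_free hθ' ?_ h7
        change u * v⁻¹ ≠ 1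
        rwa [Ne, mul_inv_eq_one]
      rw [h3, ← h6, Finset.card_eq_sum_ones]
      refine (Finset.sum_le_sum fun x hx => ?_).trans (Finset.sum_le_sum_of_subset h5)
      obtain ⟨u, -, rfl⟩ := Finset.mem_image.mp hx
      rw [mm_cj h]
      omega
    rw [hm]
    have : m = Nat.card U := le_antisymm hup hlow
    rw [this]
  · left
    refine ⟨h1, ?_⟩
    rw [Finset.sum_congr rfl (g := fun g => if g ∈ tr q U then (1 : ℂ) else 0), Finset.sum_boole]
    · have : (Finset.univ.filter fun g : Af q U => g ∈ tr q U).card = Nat.card (tr q U) := by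
        rw [Nat.card_eq_fintype_card, Fintype.card_subtype]
      rw [this, card_tr]
    · intro g _
      split_ifs with hg
      · exact h2 g hg
      · rfl

/-- there are `|U|` linear characters -/
theorem num_one : ((Irr (Af q U)).filter fun χ => χ 1 = 1 ∧
    ∑ g : Af q U, (if g ∈ tr q U then χ g else 0) = (q : ℂ)).card = Nat.card U := by
  have h1 := sum_ind (K := Af q U) (tr q U)
  have hq0 : (q : ℂ) ≠ 0 := by exact_mod_cast hq.out.ne_zero
  rw [card_tr, card] at h1
  have h2 : ∀ χ ∈ Irr (Af q U), ((q : ℂ)⁻¹ * sm (tr q U) χ) * χ 1 =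
      if χ 1 = 1 ∧ ∑ g : Af q U, (if g ∈ tr q U then χ g else 0) = (q : ℂ) then 1 else 0 := by
    intro χ hχ
    unfold sm
    rcases deg_cases (mem_Irr.mp hχ) with ⟨h3, h4⟩ | ⟨h3, h4⟩
    · rw [if_pos ⟨h3, h4⟩, h4, h3, inv_mul_cancel₀ hq0, one_mul]
    · rw [if_neg, h4, mul_zero, zero_mul]
      rintro ⟨-, h5⟩
      exact hq0 (h5.symm.trans h4)
  rw [Finset.sum_congr rfl h2, Finset.sum_boole] at h1
  push_cast at h1
  rw [← mul_assoc, inv_mul_cancel₀ hq0, one_mul] at h1
  exact_mod_cast h1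

/-- the sum of the classes of the degrees -/
theorem Mf_af {p e : ℕ} [Fact p.Prime] (he : q = 1 + Nat.card U * e) :
    Mf p (Af q U) = (Nat.card U : GR p) + (e : GR p) * w p (Nat.card U) := by
  rw [Mf_eq]
  unfold Mc
  set S := (Irr (Af q U)).filter fun χ => χ 1 = 1 ∧
    ∑ g : Af q U, (if g ∈ tr q U then χ g else 0) = (q : ℂ) with hS
  set R := (Irr (Af q U)).filter fun χ => ¬ (χ 1 = 1 ∧
    ∑ g : Af q U, (if g ∈ tr q U then χ g else 0) = (q : ℂ)) with hR
  have hsplit : ∀ {M : Type} [AddCommMonoid M] (F : (Af q U → ℂ) → M),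
      ∑ χ ∈ Irr (Af q U), F χ = ∑ χ ∈ S, F χ + ∑ χ ∈ R, F χ := fun F =>
    (Finset.sum_filter_add_sum_filter_not _ _ _).symm
  have hSd : ∀ χ ∈ S, χ 1 = 1 := fun χ hχ => (Finset.mem_filter.mp hχ).2.1
  have hRd : ∀ χ ∈ R, χ 1 = Nat.card U := by
    intro χ hχ
    rw [hR, Finset.mem_filter, mem_Irr] at hχ
    rcases deg_cases hχ.1 with h | h
    · exact absurd h hχ.2
    · exact h.1
  have hcS : S.card = Nat.card U := num_one
  have hU : 0 < Nat.card U := Nat.card_pos
  have hcR : R.card = e := by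
    have h1 := sum_sq (K := Af q U)
    rw [hsplit, card, Finset.sum_congr rfl (g := fun _ => (1 : ℂ)) (s₁ := S),
      Finset.sum_congr rfl (g := fun _ => (Nat.card U : ℂ) * Nat.card U) (s₁ := R),
      Finset.sum_const, Finset.sum_const, hcS] at h1
    · simp only [nsmul_eq_mul, mul_one] at h1
      have h2 : Nat.card U + R.card * (Nat.card U * Nat.card U) = q * Nat.card U := by
        exact_mod_cast h1
      have h4 : q * Nat.card U = (1 + Nat.card U * e) * Nat.card U := congrArg (· * Nat.card U) he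
      have h3 : Nat.card U * Nat.card U * R.card = Nat.card U * Nat.card U * e := by
        linarith
      exact Nat.eq_of_mul_eq_mul_left (Nat.mul_pos hU hU) h3
    · intro χ hχ
      rw [hRd χ hχ]
    · intro χ hχ
      rw [hSd χ hχ, mul_one]
  rw [hsplit, Finset.sum_congr rfl (g := fun _ => w p 1) (s₁ := S),
    Finset.sum_congr rfl (g := fun _ => w p (Nat.card U)) (s₁ := R), Finset.sum_const,
    Finset.sum_const, hcS, hcR, w_one]
  · simp only [nsmul_eq_mul, mul_one]
  · intro χ hχ
    rw [hRd χ hχ, wc_nat]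
  · intro χ hχ
    rw [hSd χ hχ]
    have := wc_nat (p := p) 1
    rwa [Nat.cast_one] at this

end Af

/-- subgroups of the multiplicative group of a prime field -/
theorem exists_U {q d : ℕ} [Fact q.Prime] (hd : d ∣ q - 1) :
    ∃ U : Subgroup (ZMod q)ˣ, Nat.card U = d := by
  obtain ⟨g, hg⟩ := IsCyclic.exists_generator (α := (ZMod q)ˣ)
  have h1 : orderOf g = q - 1 := by
    rw [orderOf_eq_card_of_forall_mem_zpowers hg, Nat.card_eq_fintype_card,
      ZMod.card_units_eq_totient, Nat.totient_prime Fact.out]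
  obtain ⟨e, he⟩ := hd
  have hq : 0 < q - 1 := Nat.sub_pos_of_lt (Nat.Prime.one_lt Fact.out)
  have he0 : e ≠ 0 := by
    rintro rfl
    rw [mul_zero] at he
    omega
  refine ⟨Subgroup.zpowers (g ^ e), ?_⟩
  rw [Nat.card_zpowers, orderOf_pow_of_dvd he0 (by rw [h1, he]; exact dvd_mul_left _ _), h1, he,
    Nat.mul_div_cancel _ (Nat.pos_of_ne_zero he0)]

end Pool.Agent.H922IN
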