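import Pool.Agent.Q90.WR.Gal
import Pool.Agent.R721.CD.Char

/-!
# Characters and normal subgroups of prime index
-/

set_option autoImplicit false
set_option linter.unusedSectionVars false

open scoped BigOperators Classical

noncomputable section

namespace Pool.Agent.H922IN

open Pool.Agent.Helper884.IC Pool.Agent.R721.CD

section twist

variable {K : Type} [Group K] [Fintype K]

/-- the twist of a function by the `j`-th power of a linear character -/
def tw (lam : K →* ℂˣ) (j : ℕ) (χ : K → ℂ) : K → ℂ := fun g => χ g * ((lam g : ℂˣ) : ℂ) ^ j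

theorem tw_rep {lam : K →* ℂˣ} {j : ℕ} {χ : K → ℂ} (h : IsRepChar χ) : IsRepChar (tw lam j χ) := by
  obtain ⟨V, _, _, _, rho, rfl⟩ := h
  refine ⟨TensorProduct ℂ V ℂ, inferInstance, inferInstance, inferInstance,
    Representation.tprod rho (oneRep (lam ^ j)), ?_⟩
  rw [Representation.char_tensor]
  funext g
  simp [tw, oneRep_char]

theorem tw_irr {lam : K →* ℂˣ} {j : ℕ} {χ : K → ℂ} (h : IsIrrChar χ) : IsIrrChar (tw lam j χ) := by
  have hr := tw_rep (lam := lam) (j := j) (IsRepChar.of_irr h)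
  refine Pool.Agent.Q90.WR.irr_of_norm hr.isClass ?_ ?_ ?_
  · intro ψ hψ
    obtain ⟨n, hn⟩ := mult_nat_rep hr (IsRepChar.of_irr hψ)
    exact ⟨n, by rw [hn]; push_cast; rfl⟩
  · have h1 := B_irr h h
    rw [if_pos rfl] at h1
    rw [← h1]
    unfold B tw
    congr 1
    refine Finset.sum_congr rfl fun g _ => ?_
    have : ((lam g : ℂˣ) : ℂ) ^ j * ((lam g⁻¹ : ℂˣ) : ℂ) ^ j = 1 := by
      rw [← mul_pow, ← Units.val_mul, ← map_mul, mul_inv_cancel, map_one, Units.val_one, one_pow]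
    linear_combination χ g * χ g⁻¹ * this
  · obtain ⟨n, -, hn⟩ := irr_deg h
    exact ⟨n, by unfold tw; rw [map_one, Units.val_one, one_pow, mul_one, hn]⟩

/-- second orthogonality relation -/
theorem orth2 (x y : K) :
    ∑ χ ∈ Irr K, χ x * χ y⁻¹ = ∑ g : K, if g * y * g⁻¹ = x then (1 : ℂ) else 0 := by
  set f : K → ℂ := fun x => ∑ g : K, if g * y * g⁻¹ = x then (1 : ℂ) else 0 with hf
  have hcl : IsClass f := by
    intro x z
    simp only [hf]
    refine Fintype.sum_equiv (Equiv.mulLeft z⁻¹) _ _ fun g => ?_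
    simp only [Equiv.coe_mulLeft]
    have : (g * y * g⁻¹ = z * x * z⁻¹) ↔ (z⁻¹ * g * y * (z⁻¹ * g)⁻¹ = x) := by
      constructor
      · intro h
        have : z⁻¹ * g * y * (z⁻¹ * g)⁻¹ = z⁻¹ * (g * y * g⁻¹) * z := by group
        rw [this, h]; group
      · intro h
        rw [← h]; group
    exact if_congr this rfl rfl
  have h1 := expand_at f hcl x
  have h2 : ∀ χ ∈ Irr K, B f χ = χ y⁻¹ := by
    intro χ hχ
    have hc := (mem_Irr.mp hχ).isClass
    unfold B
    simp only [hf, Finset.sum_mul]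
    rw [Finset.sum_comm]
    have : ∀ g : K, ∑ x : K, (if g * y * g⁻¹ = x then (1 : ℂ) else 0) * χ x⁻¹ = χ y⁻¹ := by
      intro g
      simp only [ite_mul, one_mul, zero_mul, Finset.sum_ite_eq, Finset.mem_univ, if_true]
      rw [← hc y⁻¹ g]
      congr 1
      group
    simp only [this, Finset.sum_const, Finset.card_univ, nsmul_eq_mul]
    rw [← mul_assoc, Nat.card_eq_fintype_card, inv_mul_cancel₀, one_mul]
    have := cardG_ne (G := K)
    rwa [Nat.card_eq_fintype_card] at this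
  have h3 : (∑ g : K, if g * y * g⁻¹ = x then (1 : ℂ) else 0) = f x := rfl
  rw [h3, h1]
  refine Finset.sum_congr rfl fun χ hχ => ?_
  rw [h2 χ hχ, mul_comm]

end twist

section nrm

variable {K : Type} [Group K] [Fintype K] {N : Subgroup K} [N.Normal] [Fintype N]

/-- restriction -/
def rs (N : Subgroup K) (χ : K → ℂ) : N → ℂ := fun n => χ n

/-- conjugation -/
def cj (g : K) (θ : N → ℂ) : N → ℂ := fun n => θ (MulAut.conjNormal g n)

theorem rs_rep {χ : K → ℂ} (h : IsIrrChar χ) : IsRepChar (rs N χ) :=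
  (IsRepChar.of_irr h).comp N.subtype

theorem cj_irr {θ : N → ℂ} (h : IsIrrChar θ) (g : K) : IsIrrChar (cj g θ) :=
  Pool.Agent.Q90.WR.irr_comp (MulAut.conjNormal g : N ≃* N) h

theorem cj_one (θ : N → ℂ) : cj (1 : K) θ = θ := by
  funext n
  unfold cj
  rw [map_one]
  rfl

theorem cj_mul (g h : K) (θ : N → ℂ) : cj (g * h) θ = cj h (cj g θ) := by
  funext n
  unfold cj
  rw [map_mul]
  rfl

theorem cj_of_mem {g : K} (hg : g ∈ N) {θ : N → ℂ} (h : IsIrrChar θ) : cj g θ = θ := by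
  funext n
  have := h.isClass n ⟨g, hg⟩
  rw [← this]
  unfold cj
  congr 1

/-- the multiplicity of `θ` in the restriction of `χ` -/
theorem mult_nat' {χ : K → ℂ} (h : IsIrrChar χ) {θ : N → ℂ} (hθ : IsIrrChar θ) :
    ∃ n : ℕ, B (rs N χ) θ = n :=
  mult_nat_rep (rs_rep h) (IsRepChar.of_irr hθ)

/-- the multiplicity of `θ` in the restriction of `χ` -/
def mm (χ : K → ℂ) (θ : N → ℂ) : ℕ := ⌊(B (rs N χ) θ).re⌋₊

theorem mm_eq {χ : K → ℂ} (h : IsIrrChar χ) {θ : N → ℂ} (hθ : IsIrrChar θ) :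
    B (rs N χ) θ = mm χ θ := by
  obtain ⟨n, hn⟩ := mult_nat' h hθ
  unfold mm
  rw [hn, Complex.natCast_re, Nat.floor_natCast]

theorem B_cj {χ : K → ℂ} (h : IsClass χ) (g : K) (θ : N → ℂ) :
    B (rs N χ) (cj g θ) = B (rs N χ) θ := by
  unfold B
  congr 1
  refine Fintype.sum_equiv (MulAut.conjNormal g : N ≃* N).toEquiv _ _ fun n => ?_
  unfold rs cj
  rw [map_inv]
  congr 1
  change χ (n : K) = χ ((MulAut.conjNormal g n : N) : K)
  rw [MulAut.conjNormal_apply, h]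

theorem mm_cj {χ : K → ℂ} (h : IsIrrChar χ) (g : K) (θ : N → ℂ) : mm χ (cj g θ) = mm χ θ := by
  unfold mm
  rw [B_cj h.isClass]

theorem sum_mm {θ θ' : N → ℂ} (h : IsIrrChar θ) (h' : IsIrrChar θ') :
    ((∑ χ ∈ Irr K, mm χ θ * mm χ θ' : ℕ) : ℂ) =
      (Nat.card N : ℂ)⁻¹ * ∑ g : K, if θ' = cj g θ then (1 : ℂ) else 0 := by
  have hN : (Nat.card N : ℂ) ≠ 0 := cardG_ne
  push_cast
  have e1 : ∑ χ ∈ Irr K, ((mm χ θ : ℕ) : ℂ) * ((mm χ θ' : ℕ) : ℂ) =
      ∑ χ ∈ Irr K, B (rs N χ) θ * B (rs N χ) θ' := by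
    refine Finset.sum_congr rfl fun χ hχ => ?_
    rw [mm_eq (mem_Irr.mp hχ) h, mm_eq (mem_Irr.mp hχ) h']
  rw [e1]
  have e2 : ∀ χ : K → ℂ, B (rs N χ) θ * B (rs N χ) θ' =
      (Nat.card N : ℂ)⁻¹ * (Nat.card N : ℂ)⁻¹ *
        ∑ n : N, ∑ n' : N, (χ n * χ (n' : K)⁻¹) * (θ n⁻¹ * θ' n') := by
    intro χ
    have e3 : B (rs N χ) θ' = (Nat.card N : ℂ)⁻¹ * ∑ n' : N, χ (n' : K)⁻¹ * θ' n' := by
      unfold B rs
      congr 1
      refine Fintype.sum_equiv (Equiv.inv N) _ _ fun n => ?_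
      simp
    rw [e3]
    unfold B rs
    rw [mul_mul_mul_comm, Finset.sum_mul_sum]
    congr 1
    refine Finset.sum_congr rfl fun n _ => Finset.sum_congr rfl fun n' _ => ?_
    ring
  simp only [e2]
  rw [← Finset.mul_sum, Finset.sum_comm]
  have e4 : ∑ n : N, ∑ χ ∈ Irr K, ∑ n' : N, (χ n * χ (n' : K)⁻¹) * (θ n⁻¹ * θ' n') =
      ∑ g : K, ∑ n' : N, cj g θ n'⁻¹ * θ' n' := by
    have : ∀ n : N, ∑ χ ∈ Irr K, ∑ n' : N, (χ n * χ (n' : K)⁻¹) * (θ n⁻¹ * θ' n') =
        ∑ n' : N, ∑ g : K, if g * (n' : K) * g⁻¹ = n then (θ n⁻¹ * θ' n') else 0 := by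
      intro n
      rw [Finset.sum_comm]
      refine Finset.sum_congr rfl fun n' _ => ?_
      rw [← Finset.sum_mul, orth2, Finset.sum_mul]
      refine Finset.sum_congr rfl fun g _ => ?_
      split_ifs <;> simp
    rw [Finset.sum_congr rfl fun n _ => this n, Finset.sum_comm,
      Finset.sum_congr rfl fun n' _ => Finset.sum_comm, Finset.sum_comm]
    refine Finset.sum_congr rfl fun g _ => ?_
    refine Finset.sum_congr rfl fun n' _ => ?_
    rw [Finset.sum_eq_single (MulAut.conjNormal g n' : N)]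
    · rw [if_pos (by rw [MulAut.conjNormal_apply])]
      unfold cj
      rw [map_inv]
    · intro n _ hn
      rw [if_neg]
      intro h
      apply hn
      apply Subtype.ext
      rw [MulAut.conjNormal_apply, h]
    · intro h; exact absurd (Finset.mem_univ _) h
  rw [e4, mul_assoc]
  congr 1
  rw [Finset.mul_sum]
  refine Finset.sum_congr rfl fun g _ => ?_
  have e5 : (Nat.card N : ℂ)⁻¹ * ∑ n' : N, cj g θ n'⁻¹ * θ' n' = B θ' (cj g θ) := by
    unfold B
    congr 1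
    exact Finset.sum_congr rfl fun n _ => mul_comm _ _
  rw [e5, B_irr h' (cj_irr h g)]

end nrm

end Pool.Agent.H922IN
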