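import Pool.Agent.H922IN.Clf

/-!
# Characters and normal subgroups of prime index, II
-/

set_option autoImplicit false
set_option linter.unusedSectionVars false

open scoped BigOperators Classical

noncomputable section

namespace Pool.Agent.H922IN

open Pool.Agent.Helper884.IC Pool.Agent.R721.CD

/-- `N` is the kernel of the linear character `lam` of prime order `ℓ` -/
structure PI {K : Type} [Group K] (N : Subgroup K) (ℓ : ℕ) (lam : K →* ℂˣ) : Prop where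
  prime : ℓ.Prime
  ker : ∀ g, g ∈ N ↔ lam g = 1
  pow : ∀ g, lam g ^ ℓ = 1
  card : Nat.card K = ℓ * Nat.card N

section

variable {K : Type} [Group K] [Fintype K] {N : Subgroup K} [N.Normal] [Fintype N] {ℓ : ℕ}
  {lam : K →* ℂˣ} (h : PI N ℓ lam)

include h

theorem PI.pow_ne {g : K} (hg : g ∉ N) {j : ℕ} (h0 : 0 < j) (hj : j < ℓ) :
    ((lam g : ℂˣ) : ℂ) ^ j ≠ 1 := by
  intro h1
  have h2 : lam g ^ j = 1 := Units.ext (by rw [Units.val_pow_eq_pow_val, h1, Units.val_one])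
  have h3 : orderOf (lam g) ∣ ℓ := orderOf_dvd_of_pow_eq_one (h.pow g)
  rcases (Nat.dvd_prime h.prime).mp h3 with h4 | h4
  · exact hg ((h.ker g).mpr (orderOf_eq_one_iff.mp h4))
  · have h5 := orderOf_dvd_of_pow_eq_one h2
    rw [h4] at h5
    exact absurd (Nat.le_of_dvd h0 h5) (by omega)

theorem PI.sum_pow (g : K) :
    ∑ j ∈ Finset.range ℓ, ((lam g : ℂˣ) : ℂ) ^ j = if g ∈ N then (ℓ : ℂ) else 0 := by
  by_cases hg : g ∈ N
  · rw [if_pos hg, (h.ker g).mp hg]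
    simp
  · rw [if_neg hg]
    have h1 : ((lam g : ℂˣ) : ℂ) ≠ 1 := by
      have := h.pow_ne hg (j := 1) one_pos h.prime.one_lt
      rwa [pow_one] at this
    rw [geom_sum_eq h1]
    have : ((lam g : ℂˣ) : ℂ) ^ ℓ = 1 := by
      rw [← Units.val_pow_eq_pow_val, h.pow g, Units.val_one]
    rw [this, sub_self, zero_div]

/-- the number of twists equal to the character -/
def ntw (lam : K →* ℂˣ) (ℓ : ℕ) (χ : K → ℂ) : ℕ :=
  ((Finset.range ℓ).filter fun j => tw lam j χ = χ).card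

omit h [N.Normal] in
theorem sum_N (f : K → ℂ) : ∑ n : N, f n = ∑ g : K, if g ∈ N then f g else 0 := by
  rw [← Finset.sum_filter]
  exact (Finset.sum_subtype (Finset.univ.filter (· ∈ N)) (by simp) f).symm

theorem PI.B_rs {χ : K → ℂ} (hχ : IsIrrChar χ) : B (rs N χ) (rs N χ) = ntw lam ℓ χ := by
  have hN : (Nat.card N : ℂ) ≠ 0 := cardG_ne
  have hl : (ℓ : ℂ) ≠ 0 := by exact_mod_cast h.prime.ne_zero
  have e1 : (ntw lam ℓ χ : ℂ) = ∑ j ∈ Finset.range ℓ, B (tw lam j χ) χ := by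
    unfold ntw
    rw [Finset.card_filter]
    push_cast
    refine Finset.sum_congr rfl fun j _ => ?_
    rw [B_irr (tw_irr hχ) hχ]
  rw [e1]
  unfold B
  rw [← Finset.mul_sum, Finset.sum_comm]
  have e2 : ∀ g : K, ∑ j ∈ Finset.range ℓ, tw lam j χ g * χ g⁻¹ =
      (ℓ : ℂ) * (if g ∈ N then χ g * χ g⁻¹ else 0) := by
    intro g
    unfold tw
    have : ∀ j, χ g * ((lam g : ℂˣ) : ℂ) ^ j * χ g⁻¹ =
        ((lam g : ℂˣ) : ℂ) ^ j * (χ g * χ g⁻¹) := fun j => by ring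
    rw [Finset.sum_congr rfl fun j _ => this j, ← Finset.sum_mul, h.sum_pow g]
    split_ifs <;> ring
  rw [Finset.sum_congr rfl fun g _ => e2 g, ← Finset.mul_sum, ← sum_N (N := N)
    (fun g => χ g * χ g⁻¹), h.card]
  push_cast
  rw [mul_inv, ← mul_assoc, mul_comm (ℓ : ℂ)⁻¹, mul_assoc (Nat.card N : ℂ)⁻¹, inv_mul_cancel₀ hl,
    mul_one]
  rfl

theorem PI.ntw_cases {χ : K → ℂ} (hχ : IsIrrChar χ) :
    ntw lam ℓ χ = 1 ∨ (ntw lam ℓ χ = ℓ ∧ ∀ g, g ∉ N → χ g = 0) := by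
  have h0 : (0 : ℕ) ∈ (Finset.range ℓ).filter fun j => tw lam j χ = χ := by
    rw [Finset.mem_filter, Finset.mem_range]
    refine ⟨h.prime.pos, ?_⟩
    funext g
    simp [tw]
  by_cases h1 : ∃ j ∈ (Finset.range ℓ).filter fun j => tw lam j χ = χ, j ≠ 0
  · right
    obtain ⟨j, hj, hj0⟩ := h1
    rw [Finset.mem_filter, Finset.mem_range] at hj
    have hz : ∀ g, g ∉ N → χ g = 0 := by
      intro g hg
      have h2 := congrFun hj.2 g
      unfold tw at h2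
      have h3 := h.pow_ne hg (Nat.pos_of_ne_zero hj0) hj.1
      have h4 : χ g * (((lam g : ℂˣ) : ℂ) ^ j - 1) = 0 := by linear_combination h2
      rcases mul_eq_zero.mp h4 with h5 | h5
      · exact h5
      · exact absurd (sub_eq_zero.mp h5) h3
    refine ⟨?_, hz⟩
    unfold ntw
    rw [Finset.filter_true_of_mem, Finset.card_range]
    intro i _
    funext g
    unfold tw
    by_cases hg : g ∈ N
    · rw [(h.ker g).mp hg]; simp
    · rw [hz g hg, zero_mul]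
  · left
    push Not at h1
    unfold ntw
    rw [Finset.card_eq_one]
    exact ⟨0, Finset.eq_singleton_iff_unique_mem.mpr ⟨h0, h1⟩⟩

theorem PI.sum_sq_mm {χ : K → ℂ} (hχ : IsIrrChar χ) :
    ∑ θ ∈ Irr N, mm χ θ * mm χ θ = ntw lam ℓ χ := by
  have h1 := h.B_rs hχ
  rw [B_expand _ _ (rs_rep hχ).isClass] at h1
  have h2 : ∑ θ ∈ Irr N, B (rs N χ) θ * B θ (rs N χ) = ((∑ θ ∈ Irr N, mm χ θ * mm χ θ : ℕ) : ℂ) := by
    push_cast
    refine Finset.sum_congr rfl fun θ hθ => ?_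
    rw [B_comm θ, mm_eq hχ (mem_Irr.mp hθ)]
  rw [h2] at h1
  exact_mod_cast h1

omit h in
theorem deg_mm {χ : K → ℂ} (hχ : IsIrrChar χ) : χ 1 = ∑ θ ∈ Irr N, (mm χ θ : ℂ) * θ 1 := by
  have h1 := expand_at _ (rs_rep (N := N) hχ).isClass 1
  have h2 : rs N χ 1 = χ 1 := rfl
  rw [h2] at h1
  rw [h1]
  refine Finset.sum_congr rfl fun θ hθ => ?_
  rw [mm_eq hχ (mem_Irr.mp hθ)]

/-- the stabiliser -/
def stb (θ : N → ℂ) : Subgroup K where
  carrier := {g | cj g θ = θ}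
  one_mem' := cj_one θ
  mul_mem' := by
    intro a b ha hb
    change cj (a * b) θ = θ
    rw [cj_mul, (ha : cj a θ = θ), (hb : cj b θ = θ)]
  inv_mem' := by
    intro a ha
    change cj a⁻¹ θ = θ
    have : cj (a * a⁻¹) θ = cj a⁻¹ (cj a θ) := cj_mul _ _ _
    rw [mul_inv_cancel, cj_one, (ha : cj a θ = θ)] at this
    exact this.symm

/-- invariance -/
def IsInv (θ : N → ℂ) : Prop := ∀ g : K, cj g θ = θ

omit h in
theorem le_stb {θ : N → ℂ} (hθ : IsIrrChar θ) : N ≤ stb θ := fun _ hg => cj_of_mem hg hθ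

theorem PI.card_stb {θ : N → ℂ} (hθ : IsIrrChar θ) :
    Nat.card (stb θ) = if IsInv θ then Nat.card K else Nat.card N := by
  split_ifs with hi
  · have : stb θ = ⊤ := by
      rw [eq_top_iff]
      exact fun g _ => hi g
    rw [this, Subgroup.card_top]
  · have h1 : Nat.card N ∣ Nat.card (stb θ) := Subgroup.card_dvd_of_le (le_stb hθ)
    have h2 : Nat.card (stb θ) ∣ Nat.card K := Subgroup.card_subgroup_dvd_card _
    obtain ⟨k, hk⟩ := h1
    rw [h.card, hk, mul_comm ℓ] at h2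
    have hN : 0 < Nat.card N := Nat.card_pos
    have h3 : k ∣ ℓ := Nat.dvd_of_mul_dvd_mul_left hN h2
    rcases (Nat.dvd_prime h.prime).mp h3 with h4 | h4
    · rw [hk, h4, mul_one]
    · exfalso
      apply hi
      have h5 : stb θ = ⊤ := by
        apply Subgroup.eq_top_of_card_eq
        rw [hk, h4, h.card, mul_comm]
      intro g
      have : g ∈ stb θ := by rw [h5]; exact Subgroup.mem_top g
      exact this

theorem PI.sum_sq {θ : N → ℂ} (hθ : IsIrrChar θ) :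
    ∑ χ ∈ Irr K, mm χ θ * mm χ θ = if IsInv θ then ℓ else 1 := by
  have h1 := sum_mm (K := K) hθ hθ
  have h2 : ∑ g : K, (if θ = cj g θ then (1 : ℂ) else 0) = (Nat.card (stb θ) : ℂ) := by
    rw [Finset.sum_boole]
    congr 1
    rw [Nat.card_eq_fintype_card, Fintype.card_subtype]
    congr 1
    ext g
    simp only [Finset.mem_filter, Finset.mem_univ, true_and]
    exact eq_comm
  rw [h2, h.card_stb hθ] at h1
  have hN : (Nat.card N : ℂ) ≠ 0 := cardG_ne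
  split_ifs at h1 ⊢ with hi
  · rw [h.card] at h1
    push_cast at h1
    rw [mul_comm (ℓ : ℂ), ← mul_assoc, inv_mul_cancel₀ hN, one_mul] at h1
    exact_mod_cast h1
  · rw [inv_mul_cancel₀ hN] at h1
    exact_mod_cast h1

omit h in
theorem conj_of_mm {χ : K → ℂ} (hχ : IsIrrChar χ) {θ θ' : N → ℂ} (hθ : IsIrrChar θ)
    (hθ' : IsIrrChar θ') (h1 : mm χ θ ≠ 0) (h2 : mm χ θ' ≠ 0) : ∃ g : K, θ' = cj g θ := by
  by_contra hcon
  push Not at hcon
  have h3 := sum_mm (K := K) hθ hθ'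
  rw [Finset.sum_eq_zero (fun g _ => if_neg (hcon g)), mul_zero] at h3
  have h4 : ∑ χ ∈ Irr K, mm χ θ * mm χ θ' = 0 := by exact_mod_cast h3
  have h5 := Finset.sum_eq_zero_iff.mp h4 χ (mem_Irr.mpr hχ)
  rcases Nat.mul_eq_zero.mp h5 with h6 | h6
  · exact h1 h6
  · exact h2 h6

omit h in
theorem inv_unique {χ : K → ℂ} (hχ : IsIrrChar χ) {θ θ' : N → ℂ} (hθ : IsIrrChar θ)
    (hθ' : IsIrrChar θ') (hi : IsInv θ) (h1 : mm χ θ ≠ 0) (h2 : mm χ θ' ≠ 0) : θ' = θ := by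
  obtain ⟨g, hg⟩ := conj_of_mm hχ hθ hθ' h1 h2
  rw [hg, hi g]

theorem PI.mm_inv {χ : K → ℂ} (hχ : IsIrrChar χ) {θ : N → ℂ} (hθ : IsIrrChar θ) (hi : IsInv θ)
    (h1 : mm χ θ ≠ 0) : mm χ θ = 1 ∧ χ 1 = θ 1 := by
  have h2 : ∀ θ' ∈ Irr N, θ' ≠ θ → mm χ θ' = 0 := by
    intro θ' hθ' hne
    by_contra h3
    exact hne (inv_unique hχ hθ (mem_Irr.mp hθ') hi h1 h3)
  have h3 := h.sum_sq_mm hχ
  rw [Finset.sum_eq_single θ (fun θ' hθ' hne => by rw [h2 θ' hθ' hne, zero_mul])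
    (fun hn => absurd (mem_Irr.mpr hθ) hn)] at h3
  have h4 : mm χ θ = 1 := by
    rcases h.ntw_cases hχ with h5 | ⟨h5, -⟩
    · rw [h5] at h3
      exact Nat.eq_one_of_mul_eq_one_left h3
    · rw [h5] at h3
      exfalso
      have h6 : (mm χ θ * mm χ θ).Prime := by rw [h3]; exact h.prime
      rcases (Nat.prime_mul_iff.mp h6) with ⟨h7, h8⟩ | ⟨h7, h8⟩
      · rw [h8] at h7; exact Nat.not_prime_one h7
      · rw [h8] at h7; exact Nat.not_prime_one h7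
  refine ⟨h4, ?_⟩
  rw [deg_mm (N := N) hχ, Finset.sum_eq_single θ
    (fun θ' hθ' hne => by rw [h2 θ' hθ' hne, Nat.cast_zero, zero_mul])
    (fun hn => absurd (mem_Irr.mpr hθ) hn), h4, Nat.cast_one, one_mul]

theorem PI.card_inv {θ : N → ℂ} (hθ : IsIrrChar θ) (hi : IsInv θ) :
    ((Irr K).filter fun χ => mm χ θ ≠ 0).card = ℓ := by
  have h1 := h.sum_sq hθ
  rw [if_pos hi] at h1
  rw [← h1, Finset.card_filter]
  refine Finset.sum_congr rfl fun χ hχ => ?_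
  by_cases h2 : mm χ θ = 0
  · rw [if_neg (by simpa using h2), h2]
  · rw [if_pos h2, (h.mm_inv (mem_Irr.mp hχ) hθ hi h2).1]

omit h in
theorem not_inv_cj {θ : N → ℂ} (hi : ¬ IsInv θ) (g : K) : ¬ IsInv (cj g θ) := by
  intro h1
  apply hi
  intro x
  have h2 := h1 (g⁻¹ * x * g)
  rw [← cj_mul, ← mul_assoc, ← mul_assoc, mul_inv_cancel, one_mul, cj_mul] at h2
  have h3 := congrArg (cj g⁻¹) h2
  have e1 : ∀ η : N → ℂ, cj g⁻¹ (cj g η) = η := by
    intro η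
    rw [← cj_mul, mul_inv_cancel, cj_one]
  rw [e1, e1] at h3
  exact h3

theorem PI.mm_le {χ : K → ℂ} (hχ : IsIrrChar χ) {θ : N → ℂ} (hθ : IsIrrChar θ) (hi : ¬ IsInv θ) :
    mm χ θ ≤ 1 := by
  have h1 := h.sum_sq hθ
  rw [if_neg hi] at h1
  have h2 : mm χ θ * mm χ θ ≤ 1 := by
    rw [← h1]
    exact Finset.single_le_sum (f := fun χ => mm χ θ * mm χ θ) (fun _ _ => Nat.zero_le _)
      (mem_Irr.mpr hχ)
  nlinarith

theorem PI.card_not_inv {θ : N → ℂ} (hθ : IsIrrChar θ) (hi : ¬ IsInv θ) :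
    ((Irr K).filter fun χ => mm χ θ ≠ 0).card = 1 := by
  have h1 := h.sum_sq hθ
  rw [if_neg hi] at h1
  rw [← h1, Finset.card_filter]
  refine Finset.sum_congr rfl fun χ hχ => ?_
  have h3 := h.mm_le (mem_Irr.mp hχ) hθ hi
  by_cases h2 : mm χ θ = 0
  · rw [if_neg (by simpa using h2), h2]
  · rw [if_pos h2, show mm χ θ = 1 by omega]

omit h in
theorem cj_deg (g : K) (θ : N → ℂ) : cj g θ 1 = θ 1 := by
  unfold cj
  rw [map_one]

theorem PI.below {χ : K → ℂ} (hχ : IsIrrChar χ) {θ : N → ℂ} (hθ : IsIrrChar θ) (hi : ¬ IsInv θ)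
    (h1 : mm χ θ ≠ 0) :
    ((Irr N).filter fun θ' => mm χ θ' ≠ 0).card = ℓ ∧ χ 1 = ℓ * θ 1 := by
  have h2 : ∀ θ' ∈ Irr N, mm χ θ' ≠ 0 → ∃ g : K, θ' = cj g θ := fun θ' hθ' h3 =>
    conj_of_mm hχ hθ (mem_Irr.mp hθ') h1 h3
  have h3 : ∀ θ' ∈ Irr N, mm χ θ' ≤ 1 := by
    intro θ' hθ'
    by_cases h4 : mm χ θ' = 0
    · rw [h4]; exact Nat.zero_le _
    · obtain ⟨g, hg⟩ := h2 θ' hθ' h4
      exact h.mm_le hχ (mem_Irr.mp hθ') (by rw [hg]; exact not_inv_cj hi g)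
  have h4 : ((Irr N).filter fun θ' => mm χ θ' ≠ 0).card = ntw lam ℓ χ := by
    rw [← h.sum_sq_mm hχ, Finset.card_filter]
    refine Finset.sum_congr rfl fun θ' hθ' => ?_
    have h5 := h3 θ' hθ'
    by_cases h6 : mm χ θ' = 0
    · rw [if_neg (by simpa using h6), h6]
    · rw [if_pos h6, show mm χ θ' = 1 by omega]
  have h5 : ((Irr N).filter fun θ' => mm χ θ' ≠ 0).card ≠ 1 := by
    intro h6
    obtain ⟨a, ha⟩ := Finset.card_eq_one.mp h6
    apply hi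
    intro g
    have e1 : θ ∈ (Irr N).filter fun θ' => mm χ θ' ≠ 0 :=
      Finset.mem_filter.mpr ⟨mem_Irr.mpr hθ, h1⟩
    have e2 : cj g θ ∈ (Irr N).filter fun θ' => mm χ θ' ≠ 0 :=
      Finset.mem_filter.mpr ⟨mem_Irr.mpr (cj_irr hθ g), by rwa [mm_cj hχ]⟩
    rw [ha, Finset.mem_singleton] at e1 e2
    rw [e2, e1]
  have h6 : ((Irr N).filter fun θ' => mm χ θ' ≠ 0).card = ℓ := by
    rcases h.ntw_cases hχ with h7 | ⟨h7, -⟩
    · exact absurd (h4.trans h7) h5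
    · exact h4.trans h7
  refine ⟨h6, ?_⟩
  rw [deg_mm (N := N) hχ]
  have h7 : ∀ θ' ∈ Irr N, (mm χ θ' : ℂ) * θ' 1 = if mm χ θ' ≠ 0 then θ 1 else 0 := by
    intro θ' hθ'
    by_cases h8 : mm χ θ' = 0
    · rw [h8]; simp
    · obtain ⟨g, hg⟩ := h2 θ' hθ' h8
      have h9 : mm χ θ' = 1 := by have := h3 θ' hθ'; omega
      rw [if_pos h8, h9, Nat.cast_one, one_mul, hg, cj_deg]
  rw [Finset.sum_congr rfl h7, ← Finset.sum_filter, Finset.sum_const, h6, nsmul_eq_mul]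

omit h in
theorem exists_below {χ : K → ℂ} (hχ : IsIrrChar χ) : ∃ θ ∈ Irr N, mm χ θ ≠ 0 := by
  by_contra hcon
  push Not at hcon
  have h1 := deg_mm (N := N) hχ
  rw [Finset.sum_eq_zero (fun θ hθ => by rw [hcon θ hθ, Nat.cast_zero, zero_mul])] at h1
  obtain ⟨n, hn, h2⟩ := irr_deg hχ
  rw [h2] at h1
  have : n = 0 := by exact_mod_cast h1
  omega

/-- sums over the irreducible characters of `K` in terms of those of `N` -/
theorem PI.sum_Irr {M : Type} [AddCommMonoid M] (F : (K → ℂ) → M) :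
    ℓ • ∑ χ ∈ Irr K, F χ = ∑ θ ∈ Irr N,
      (if IsInv θ then ℓ else 1) • ∑ χ ∈ (Irr K).filter (fun χ => mm χ θ ≠ 0), F χ := by
  have e1 : ∀ θ ∈ Irr N, (if IsInv θ then ℓ else 1) • ∑ χ ∈ (Irr K).filter (fun χ => mm χ θ ≠ 0), F χ =
      ∑ χ ∈ Irr K, if mm χ θ ≠ 0 then (if IsInv θ then ℓ else 1) • F χ else 0 := by
    intro θ _
    rw [Finset.smul_sum, Finset.sum_filter]
  rw [Finset.sum_congr rfl e1, Finset.sum_comm, Finset.smul_sum]
  refine Finset.sum_congr rfl fun χ hχ => ?_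
  have hχ' := mem_Irr.mp hχ
  obtain ⟨θ, hθ, h1⟩ := exists_below (N := N) hχ'
  have hθ' := mem_Irr.mp hθ
  by_cases hi : IsInv θ
  · rw [Finset.sum_eq_single θ]
    · rw [if_pos h1, if_pos hi]
    · intro θ' hθ'' hne
      rw [if_neg]
      intro h2
      exact hne (inv_unique hχ' hθ' (mem_Irr.mp hθ'') hi h1 h2)
    · intro hn; exact absurd hθ hn
  · rw [← Finset.sum_filter, Finset.sum_congr rfl (g := fun _ => F χ), Finset.sum_const,
      (h.below hχ' hθ' hi h1).1]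
    intro θ' hθ''
    rw [Finset.mem_filter] at hθ''
    obtain ⟨g, hg⟩ := conj_of_mm hχ' hθ' (mem_Irr.mp hθ''.1) h1 hθ''.2
    rw [if_neg (by rw [hg]; exact not_inv_cj hi g), one_smul]

end

end Pool.Agent.H922IN
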