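import Pool.Agent.H922IN.Aff
import Mathlib.NumberTheory.LSeries.PrimesInAP

/-!
# Criteria for equality of the numbers of characters with degrees in given classes
-/

set_option autoImplicit false
set_option linter.unusedSectionVars false

open scoped BigOperators Classical

noncomputable section

namespace Pool.Agent.H922IN

open Pool.Agent.Helper884.IC Pool.Agent.R721.CD

variable {p : ℕ} [hp : Fact p.Prime]

instance : Finite (Cl p) := by
  unfold Cl
  infer_instance

/-- the coefficient of the difference -/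
theorem coeff_DD {G : Type} [Group G] [Finite G] (P : Sylow p G) (u : (ZMod p)ˣ) :
    (DD P).coeff (cm p u) = (Mn p (u : ZMod p) G : ℤ) - Mn p (u : ZMod p) (nrm P) := by
  have := Fintype.ofFinite G
  have := Fintype.ofFinite (nrm P)
  unfold DD
  rw [Mf_eq, Mf_eq, MonoidAlgebra.coeff_sub, Finsupp.sub_apply, coeff_Mc, coeff_Mc]

theorem cm_surj (c : Cl p) : ∃ u, cm p u = c := QuotientGroup.mk'_surjective _ c

/-- the affine groups -/
theorem exists_aff {ℓ : ℕ} [hl : Fact ℓ.Prime] (hne : p ≠ ℓ) (c : Cl p) (Bd : ℕ → ℕ) :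
    ∃ (d e : ℕ) (H : Type) (_ : Group H) (_ : Finite H), ¬ p ∣ Nat.card H ∧ Bd d < e ∧
      e % ℓ = 1 ∧ (∃ h : IsUnit (d : ZMod p), cm p h.unit = c) ∧
      Mf p H = (d : GR p) + (e : GR p) * w p d := by
  obtain ⟨u, rfl⟩ := cm_surj c
  have hcop : Nat.Coprime p ℓ := (Nat.coprime_primes hp.out hl.out).mpr hne
  obtain ⟨d, hd1, hd2⟩ := Nat.chineseRemainder hcop (u : ZMod p).val 0
  have hdu : (d : ZMod p) = u := by
    rw [← ZMod.natCast_zmod_val (u : ZMod p)]
    exact (ZMod.natCast_eq_natCast_iff _ _ _).mpr hd1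
  have hd0 : d ≠ 0 := by
    rintro rfl
    rw [Nat.cast_zero] at hdu
    exact u.ne_zero hdu.symm
  have hld : ℓ ∣ d := (Nat.modEq_zero_iff_dvd).mp hd2
  have hc1 : Nat.Coprime (1 + d) (d * ℓ) := by
    apply Nat.Coprime.mul_right
    · simp
    · obtain ⟨k, rfl⟩ := hld
      simp
  obtain ⟨q, hq1, hq2, hq3⟩ := Nat.forall_exists_prime_gt_and_modEq
    (p + (1 + d) + d * ℓ * (Bd d + 1)) (Nat.mul_ne_zero hd0 hl.out.ne_zero) hc1
  have : Fact q.Prime := ⟨hq2⟩
  have h1 : 1 + d ≤ q := by omega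
  obtain ⟨t, ht⟩ := (Nat.modEq_iff_dvd' h1).mp hq3.symm
  have hq4 : q = 1 + d * (1 + ℓ * t) := by
    have : q = 1 + d + d * ℓ * t := by omega
    rw [this]; ring
  have hBt : Bd d < t := by
    by_contra hcon
    push Not at hcon
    have h5 : d * ℓ * t ≤ d * ℓ * (Bd d + 1) := Nat.mul_le_mul_left _ (by omega)
    omega
  obtain ⟨U, hU⟩ := exists_U (q := q) (d := d) (by rw [hq4]; simp)
  refine ⟨d, 1 + ℓ * t, Af q U, inferInstance, inferInstance, ?_, ?_, ?_, ?_, ?_⟩
  · rw [Af.card, hU]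
    intro h
    rcases (Nat.Prime.dvd_mul hp.out).mp h with h | h
    · have := (Nat.prime_dvd_prime_iff_eq hp.out hq2).mp h
      omega
    · rw [← ZMod.natCast_eq_zero_iff, hdu] at h
      exact u.ne_zero h
  · have : t ≤ ℓ * t := Nat.le_mul_of_pos_left _ hl.out.pos
    omega
  · rw [Nat.add_mul_mod_self_left]
    exact Nat.mod_eq_of_lt hl.out.one_lt
  · refine ⟨by rw [hdu]; exact u.isUnit, ?_⟩
    congr 1
    apply Units.ext
    exact hdu
  · have := Af.Mf_af (q := q) (U := U) (p := p) (e := 1 + ℓ * t) (by rw [hU]; exact hq4)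
    rw [hU] at this
    exact this

/-- the coefficient for a direct product -/
theorem coeff_prod {G H : Type} [Group G] [Finite G] [Group H] [Finite H] (P : Sylow p G)
    (hH : ¬ p ∣ Nat.card H) {d e : ℕ} (h : IsUnit (d : ZMod p))
    (hM : Mf p H = (d : GR p) + (e : GR p) * w p d) (c : Cl p) :
    ∃ Q : Sylow p (G × H),
      (DD Q).coeff c = d * (DD P).coeff c + e * (DD P).coeff (c * (cm p h.unit)⁻¹) := by
  obtain ⟨Q, hQ⟩ := exists_sylow_prod hH P
  refine ⟨Q, ?_⟩
  have e1 : Nonempty (nrm Q ≃* (nrm P) × H) := by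
    unfold nrm
    rw [hQ]
    exact ⟨normProdE _⟩
  obtain ⟨e1⟩ := e1
  have e2 : DD Q = DD P * ((d : GR p) + (e : GR p) * w p d) := by
    unfold DD
    rw [Mf_congr e1, Mf_prod, Mf_prod, hM]
    ring
  have e3 : DD Q = d • DD P + e • (DD P * MonoidAlgebra.single (cm p h.unit) 1) := by
    rw [e2, w_unit h]
    simp only [nsmul_eq_mul]
    ring
  rw [e3, MonoidAlgebra.coeff_add, Finsupp.add_apply, MonoidAlgebra.coeff_smul,
    MonoidAlgebra.coeff_smul, Finsupp.smul_apply, Finsupp.smul_apply, nsmul_eq_mul, nsmul_eq_mul]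
  congr 2
  rw [MonoidAlgebra.coeff_mul_single_eq_coeff_mul (m₂ := c * (cm p h.unit)⁻¹), mul_one]
  intro m' _
  exact eq_mul_inv_iff_mul_eq.symm

end Pool.Agent.H922IN
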