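import Pool.Agent.H922IN.Crt

/-!
# One congruence decides the McKay bijections with degrees congruent up to sign
-/

set_option autoImplicit false
set_option linter.unusedSectionVars false

open scoped BigOperators Classical

noncomputable section

namespace Pool.Agent.H922IN

open Pool.Agent.Helper884.IC Pool.Agent.R721.CD

variable {p : ℕ} [hp : Fact p.Prime]

/-- the irreducible characters of degree prime to `p` -/
def IrrP (p : ℕ) (G : Type) [Group G] : Type :=
  {χ : G → ℂ // IsIrrChar χ ∧ ∃ n : ℕ, χ 1 = n ∧ ¬ p ∣ n}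

/-- the degrees are congruent up to sign modulo `p` -/
def Cg (p : ℕ) (x y : ℂ) : Prop :=
  ∃ m n : ℕ, x = m ∧ y = n ∧ ((m : ZMod p) = n ∨ (m : ZMod p) = -n)

/-- there is a bijection with degrees congruent up to sign -/
def Bij {G : Type} [Group G] (P : Sylow p G) : Prop :=
  ∃ f : IrrP p G ≃ IrrP p (nrm P), ∀ χ, Cg p (χ.1 1) ((f χ).1 1)

theorem isUnit_of {n : ℕ} (h : ¬ p ∣ n) : IsUnit (n : ZMod p) := by
  rw [isUnit_iff_ne_zero, Ne, ZMod.natCast_eq_zero_iff]
  exact h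

/-- the class of the degree -/
def cls {G : Type} [Group G] (χ : IrrP p G) : Cl p :=
  cm p (isUnit_of (p := p) χ.2.2.choose_spec.2).unit

theorem cls_eq {G : Type} [Group G] (χ : IrrP p G) {n : ℕ} (hn : χ.1 1 = n)
    (h : IsUnit (n : ZMod p)) : cls χ = cm p h.unit := by
  have h1 := χ.2.2.choose_spec.1
  have : χ.2.2.choose = n := by exact_mod_cast h1.symm.trans hn
  unfold cls
  congr 1
  apply Units.ext
  change ((χ.2.2.choose : ℕ) : ZMod p) = n
  rw [this]

theorem cls_cg {G H : Type} [Group G] [Group H] (χ : IrrP p G) (ψ : IrrP p H) :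
    cls χ = cls ψ ↔ Cg p (χ.1 1) (ψ.1 1) := by
  obtain ⟨-, m, hm, hpm⟩ := id χ.2
  obtain ⟨-, n, hn, hpn⟩ := id ψ.2
  rw [cls_eq χ hm (isUnit_of hpm), cls_eq ψ hn (isUnit_of hpn), mk_eq]
  unfold Cg
  rw [hm, hn]
  constructor
  · intro h
    exact ⟨m, n, rfl, rfl, h⟩
  · rintro ⟨m', n', h1, h2, h⟩
    have e1 : m = m' := by exact_mod_cast h1
    have e2 : n = n' := by exact_mod_cast h2
    subst e1 e2
    exact h

instance finIrrP (G : Type) [Group G] [Finite G] : Finite (IrrP p G) := by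
  have := Fintype.ofFinite G
  have h1 := irr_finite (G := G)
  have h2 : {χ : G → ℂ | IsIrrChar χ ∧ ∃ n : ℕ, χ 1 = n ∧ ¬ p ∣ n}.Finite :=
    h1.subset fun χ h => h.1
  exact h2.to_subtype

theorem card_fib (G : Type) [Group G] [Finite G] (u : (ZMod p)ˣ) :
    Nat.card {χ : IrrP p G // cls χ = cm p u} = Mn p (u : ZMod p) G := by
  unfold Mn
  refine Nat.card_congr
    { toFun := fun χ => ⟨χ.1.1, χ.1.2.1, ?_⟩
      invFun := fun χ => ⟨⟨χ.1, χ.2.1, ?_⟩, ?_⟩
      left_inv := fun _ => rfl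
      right_inv := fun _ => rfl }
  · obtain ⟨-, n, hn, hpn⟩ := id χ.1.2
    refine ⟨n, hn, ?_⟩
    have := χ.2
    rwa [cls_eq χ.1 hn (isUnit_of hpn), mk_eq] at this
  · obtain ⟨-, n, hn, h⟩ := id χ.2
    refine ⟨n, hn, ?_⟩
    rw [← ZMod.natCast_eq_zero_iff]
    rcases h with h | h
    · rw [h]; exact u.ne_zero
    · rw [h]; exact neg_ne_zero.mpr u.ne_zero
  · obtain ⟨-, n, hn, h⟩ := id χ.2
    have h1 : IsUnit (n : ZMod p) := by
      rcases h with h | h
      · rw [h]; exact u.isUnit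
      · rw [h]; exact u.isUnit.neg
    rw [cls_eq _ hn h1, mk_eq]
    exact h

/-- a bijection exists if and only if the difference vanishes -/
theorem bij_iff {G : Type} [Group G] [Finite G] (P : Sylow p G) : Bij P ↔ DD P = 0 := by
  have key : DD P = 0 ↔ ∀ u : (ZMod p)ˣ, Mn p (u : ZMod p) G = Mn p (u : ZMod p) (nrm P) := by
    constructor
    · intro h u
      have h1 := coeff_DD P u
      rw [h, MonoidAlgebra.coeff_zero, Finsupp.zero_apply] at h1
      omega
    · intro h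
      apply MonoidAlgebra.coeff_injective
      ext c
      obtain ⟨u, rfl⟩ := cm_surj c
      rw [coeff_DD, h u, sub_self, MonoidAlgebra.coeff_zero, Finsupp.zero_apply]
  rw [key]
  constructor
  · rintro ⟨f, hf⟩ u
    rw [← card_fib, ← card_fib]
    refine Nat.card_congr (Equiv.subtypeEquiv f fun χ => ?_)
    rw [(cls_cg χ (f χ)).mpr (hf χ)]
  · intro h
    have h1 : ∀ c : Cl p, Nonempty ({χ : IrrP p G // cls χ = c} ≃
        {χ : IrrP p (nrm P) // cls χ = c}) := by
      intro c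
      obtain ⟨u, rfl⟩ := cm_surj c
      rw [← Finite.card_eq, card_fib, card_fib]
      exact h u
    let e : ∀ c : Cl p, {χ : IrrP p G // cls χ = c} ≃ {χ : IrrP p (nrm P) // cls χ = c} :=
      fun c => (h1 c).some
    refine ⟨(Equiv.sigmaFiberEquiv cls).symm.trans ((Equiv.sigmaCongrRight e).trans
      (Equiv.sigmaFiberEquiv cls)), fun χ => ?_⟩
    rw [← cls_cg]
    exact (e (cls χ) ⟨χ, rfl⟩).2.symm

/-- the total numbers of characters -/
theorem coeff_psi_zero (G : Type) [Group G] [Finite G] :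
    (psi p 0 (Mf p G)).coeff 1 = (Nat.card (IrrP p G) : ℤ) := by
  have := Fintype.ofFinite G
  rw [Mf_eq]
  unfold Mc IrrP
  rw [Pool.Agent.Q90.WR.card_filter_eq, Finset.card_filter, map_sum, MonoidAlgebra.coeff_sum,
    Finsupp.finsetSum_apply]
  push_cast
  refine Finset.sum_congr rfl fun χ hχ => ?_
  obtain ⟨n, -, hn⟩ := irr_deg (mem_Irr.mp hχ)
  rw [hn, wc_nat]
  by_cases h : IsUnit (n : ZMod p)
  · rw [w_unit h, if_pos]
    · unfold psi
      simp [MonoidAlgebra.mapDomain_single]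
    · refine ⟨n, rfl, fun h1 => ?_⟩
      rw [(ZMod.natCast_eq_zero_iff _ _).mpr h1] at h
      exact not_isUnit_zero h
  · rw [w_not h, map_zero, MonoidAlgebra.coeff_zero, Finsupp.zero_apply, if_neg]
    rintro ⟨m, hm, h1⟩
    have : n = m := by exact_mod_cast hm
    subst this
    exact h (isUnit_of h1)

theorem psi_zero_coeff (x : GR p) : (psi p 0 x).coeff 1 = ∑ᶠ c : Cl p, x.coeff c := by
  have := Fintype.ofFinite (Cl p)
  rw [finsum_eq_sum_of_fintype]
  have h1 : x = ∑ c : Cl p, MonoidAlgebra.single c (x.coeff c) := by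
    apply MonoidAlgebra.coeff_injective
    ext d
    rw [MonoidAlgebra.coeff_sum, Finsupp.finsetSum_apply]
    simp [Finsupp.single_apply]
  conv_lhs => rw [h1]
  rw [map_sum, MonoidAlgebra.coeff_sum, Finsupp.finsetSum_apply]
  refine Finset.sum_congr rfl fun c _ => ?_
  unfold psi
  simp [MonoidAlgebra.mapDomain_single]

/-- the McKay equality -/
theorem mckay_iff {G : Type} [Group G] [Finite G] (P : Sylow p G) :
    Nat.card (IrrP p G) = Nat.card (IrrP p (nrm P)) ↔ (psi p 0 (DD P)).coeff 1 = 0 := by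
  unfold DD
  rw [map_sub, MonoidAlgebra.coeff_sub, Finsupp.sub_apply, coeff_psi_zero, coeff_psi_zero]
  omega

/-- if the differences at one class never have the wrong sign, they vanish -/
theorem one_sided (c₀ : Cl p) (s : ℤ) (hs : s = 1 ∨ s = -1)
    (hM : ∀ (G : Type) [Group G] [Finite G] (P : Sylow p G),
      Nat.card (IrrP p G) = Nat.card (IrrP p (nrm P)))
    (h : ∀ (G : Type) [Group G] [Finite G] (P : Sylow p G), s * (DD P).coeff c₀ ≤ 0)
    (G : Type) [Group G] [Finite G] (P : Sylow p G) : DD P = 0 := by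
  have h1 : ∀ c : Cl p, s * (DD P).coeff c ≤ 0 := by
    intro c
    by_contra hcon
    push Not at hcon
    obtain ⟨ℓ, hl, hlp⟩ : ∃ ℓ : ℕ, ℓ.Prime ∧ p ≠ ℓ := by
      obtain ⟨q, hq1, hq2⟩ := Nat.exists_infinite_primes (p + 1)
      exact ⟨q, hq2, by omega⟩
    have : Fact ℓ.Prime := ⟨hl⟩
    obtain ⟨d, e, H, _, _, hH, he, -, ⟨hd, hdc⟩, hMH⟩ := exists_aff (p := p) hlp (c⁻¹ * c₀)
      (fun d => d * ((DD P).coeff c₀).natAbs)
    obtain ⟨Q, hQ⟩ := coeff_prod P hH hd hMH c₀
    have h2 := h _ Q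
    rw [hQ, hdc, mul_inv, inv_inv, mul_comm c c₀⁻¹, mul_inv_cancel_left] at h2
    have h3 : (e : ℤ) ≤ (s * (DD P).coeff c) * e := by
      have : (1 : ℤ) ≤ s * (DD P).coeff c := hcon
      nlinarith [Int.natCast_nonneg e]
    have h4 : (d : ℤ) * |(DD P).coeff c₀| < e := by
      rw [Int.abs_eq_natAbs]
      exact_mod_cast he
    have h5 : -((d : ℤ) * |(DD P).coeff c₀|) ≤ s * (d * (DD P).coeff c₀) := by
      have h6 : |s * (d * (DD P).coeff c₀)| = d * |(DD P).coeff c₀| := by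
        rw [abs_mul, abs_mul, Nat.abs_cast]
        rcases hs with rfl | rfl <;> simp
      rw [← h6]
      exact neg_abs_le _
    have h7 : s * (↑d * (DD P).coeff c₀ + ↑e * (DD P).coeff c) =
        s * (d * (DD P).coeff c₀) + (s * (DD P).coeff c) * e := by ring
    rw [h7] at h2
    linarith
  have h2 := (mckay_iff P).mp (hM G P)
  rw [psi_zero_coeff] at h2
  have := Fintype.ofFinite (Cl p)
  rw [finsum_eq_sum_of_fintype] at h2
  have h3 : ∑ c : Cl p, s * (DD P).coeff c = 0 := by rw [← Finset.mul_sum, h2, mul_zero]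
  have h4 := (Finset.sum_eq_zero_iff_of_nonpos (fun c _ => h1 c)).mp h3
  apply MonoidAlgebra.coeff_injective
  ext c
  have h5 := h4 c (Finset.mem_univ c)
  rw [MonoidAlgebra.coeff_zero, Finsupp.zero_apply]
  rcases hs with rfl | rfl <;> omega

/-- a congruence at one class for all groups gives a congruence at all classes -/
theorem all_classes {ℓ : ℕ} [hl : Fact ℓ.Prime] (hne : p ≠ ℓ) (c₀ : Cl p)
    (h : ∀ (G : Type) [Group G] [Finite G] (P : Sylow p G), (ℓ : ℤ) ∣ (DD P).coeff c₀)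
    (G : Type) [Group G] [Finite G] (P : Sylow p G) : (ℓ : GR p) ∣ DD P := by
  have h1 : ∀ c : Cl p, (ℓ : ℤ) ∣ (DD P).coeff c := by
    intro c
    obtain ⟨d, e, H, _, _, hH, -, he, ⟨hd, hdc⟩, hMH⟩ := exists_aff (p := p) hne (c⁻¹ * c₀)
      (fun _ => 0)
    obtain ⟨Q, hQ⟩ := coeff_prod P hH hd hMH c₀
    have h2 := h _ Q
    rw [hQ, hdc, mul_inv, inv_inv, mul_comm c c₀⁻¹, mul_inv_cancel_left] at h2
    have h3 : (ℓ : ℤ) ∣ e * (DD P).coeff c := by
      have := (Int.dvd_add_right ((h G P).mul_left (d : ℤ))).mp h2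
      exact this
    have h4 : IsCoprime (ℓ : ℤ) e := by
      rw [Nat.isCoprime_iff_coprime, Nat.Prime.coprime_iff_not_dvd hl.out]
      intro h5
      rw [Nat.dvd_iff_mod_eq_zero] at h5
      omega
    exact h4.dvd_of_dvd_mul_left h3
  choose f hf using h1
  have := Fintype.ofFinite (Cl p)
  refine ⟨∑ c : Cl p, MonoidAlgebra.single c (f c), ?_⟩
  apply MonoidAlgebra.coeff_injective
  ext c
  rw [← nsmul_eq_mul, MonoidAlgebra.coeff_smul, MonoidAlgebra.coeff_sum, Finsupp.smul_apply,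
    Finsupp.finsetSum_apply, nsmul_eq_mul, hf c]
  simp [Finsupp.single_apply]

theorem coeff_dvd {n : ℕ} {x : GR p} (h : (n : GR p) ∣ x) (c : Cl p) : (n : ℤ) ∣ x.coeff c := by
  obtain ⟨y, rfl⟩ := h
  rw [← nsmul_eq_mul, MonoidAlgebra.coeff_smul, Finsupp.smul_apply, nsmul_eq_mul]
  exact dvd_mul_right _ _

theorem eq_zero_of_pow {ℓ : ℕ} (hl : 1 < ℓ) {z : ℤ} (h : ∀ m : ℕ, ((ℓ ^ (m + 1) : ℕ) : ℤ) ∣ z) :
    z = 0 := by
  by_contra hne
  have h1 := Int.natAbs_dvd_natAbs.mpr (h z.natAbs)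
  have h2 := Nat.le_of_dvd (Int.natAbs_pos.mpr hne) h1
  rw [Int.natAbs_natCast] at h2
  have h3 : z.natAbs < ℓ ^ z.natAbs := Nat.lt_pow_self hl
  have h4 : ℓ ^ z.natAbs ≤ ℓ ^ (z.natAbs + 1) := Nat.pow_le_pow_right (by omega) (by omega)
  omega

/-- the coefficients of the Adams operation if it is injective on classes -/
theorem coeff_psi {n : ℕ} (hn : Function.Injective (fun c : Cl p => c ^ n)) (x : GR p) (c : Cl p) :
    (psi p n x).coeff (c ^ n) = x.coeff c :=
  Finsupp.mapDomain_apply hn _ _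

/-- a congruence at one class for all groups implies equality -/
theorem congr_all {ℓ : ℕ} [hl : Fact ℓ.Prime] (hne : p ≠ ℓ) (hc : ¬ ℓ ∣ Nat.card (Cl p))
    (c₀ : Cl p)
    (h : ∀ (G : Type) [Group G] [Finite G] (P : Sylow p G), (ℓ : ℤ) ∣ (DD P).coeff c₀)
    (G : Type) [Group G] [Finite G] (P : Sylow p G) : DD P = 0 := by
  apply MonoidAlgebra.coeff_injective
  ext c
  rw [MonoidAlgebra.coeff_zero, Finsupp.zero_apply]
  apply eq_zero_of_pow hl.out.one_lt
  intro m
  have h1 := tower hne m G P fun j _ Q => all_classes hne c₀ h _ Q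
  have hcop : (Nat.card (Cl p)).Coprime (ℓ ^ m) :=
    Nat.Coprime.pow_right m ((Nat.Prime.coprime_iff_not_dvd hl.out).mpr hc).symm
  have h2 : Function.Injective (fun c : Cl p => c ^ (ℓ ^ m)) := (powCoprime hcop).injective
  rw [← coeff_psi h2]
  have h3 : ((ℓ ^ (m + 1) : ℕ) : GR p) ∣ psi p (ℓ ^ m) (DD P) := by
    rw [Nat.cast_pow]; exact h1
  exact coeff_dvd h3 _

/-- a congruence at one class for all groups implies the McKay equality -/
theorem mckay_of_congr {ℓ : ℕ} [hl : Fact ℓ.Prime] (hne : p ≠ ℓ) (c₀ : Cl p)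
    (h : ∀ (G : Type) [Group G] [Finite G] (P : Sylow p G), (ℓ : ℤ) ∣ (DD P).coeff c₀)
    (G : Type) [Group G] [Finite G] (P : Sylow p G) :
    Nat.card (IrrP p G) = Nat.card (IrrP p (nrm P)) := by
  rw [mckay_iff]
  apply eq_zero_of_pow hl.out.one_lt
  intro m
  have h1 := tower hne m G P fun j _ Q => all_classes hne c₀ h _ Q
  have h3 : ((ℓ ^ (m + 1) : ℕ) : GR p) ∣ psi p (ℓ ^ m) (DD P) := by
    rw [Nat.cast_pow]; exact h1
  have h4 := map_dvd (psi p 0) h3
  rw [map_natCast, psi_psi, zero_mul] at h4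
  exact coeff_dvd h4 _

end Pool.Agent.H922IN
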