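import Pool.Agent.H922IN.Fin

/-!
# The criterion for a single group, and the classes of `ℓ`-power order
-/

set_option autoImplicit false
set_option linter.unusedSectionVars false

open scoped BigOperators Classical

noncomputable section

namespace Pool.Agent.H922IN

open Pool.Agent.Helper884.IC Pool.Agent.R721.CD

variable {p : ℕ} [hp : Fact p.Prime]

theorem nsmul_inj {n : ℕ} (hn : n ≠ 0) {x y : GR p} (h : (n : GR p) * x = (n : GR p) * y) :
    x = y := by
  apply MonoidAlgebra.coeff_injective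
  ext c
  have h1 := congrArg (fun z : GR p => z.coeff c) h
  simp only [← nsmul_eq_mul] at h1
  rw [MonoidAlgebra.coeff_smul, MonoidAlgebra.coeff_smul, Finsupp.smul_apply, Finsupp.smul_apply,
    nsmul_eq_mul, nsmul_eq_mul] at h1
  exact mul_left_cancel₀ (by exact_mod_cast hn) h1

theorem up_zero {ℓ : ℕ} [hl : Fact ℓ.Prime] (hne : p ≠ ℓ) : ∀ (j : ℕ) (G : Type) [Group G]
    [Finite G] (P : Sylow p G), DD P = 0 → ∀ Q : Sylow p (WN ℓ j G), DD Q = 0 := by
  intro j
  induction j with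
  | zero =>
    intro G _ _ P h Q
    exact (DD_indep (p := p) (G := G) Q P).trans h
  | succ j ih =>
    intro G _ _ P h Q
    obtain ⟨R, hR⟩ := wr_pair hne P
    refine ih (WrC ℓ G) R ?_ Q
    unfold DD at h ⊢
    rw [hR, sub_eq_zero]
    apply nsmul_inj hl.out.ne_zero
    rw [Mf_wr, Mf_wr, sub_eq_zero.mp h]

theorem Mn_le (a : ZMod p) (G : Type) [Group G] [Finite G] : Mn p a G ≤ Nat.card G := by
  have := Fintype.ofFinite G
  unfold Mn
  rw [Pool.Agent.Q90.WR.card_filter_eq]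
  exact (Finset.card_filter_le _ _).trans (Pool.Agent.Q90.WR.card_Irr_le G)

/-- the criterion for a single group -/
theorem single {ℓ : ℕ} [hl : Fact ℓ.Prime] (hne : p ≠ ℓ) (hc : ¬ ℓ ∣ Nat.card (Cl p))
    (G : Type) [Group G] [Finite G] (P : Sylow p G) : DD P = 0 ↔
      ∀ j, ℓ ^ j ≤ Nat.card G → ∀ (Q : Sylow p (WN ℓ j G)) (c : Cl p), (ℓ : ℤ) ∣ (DD Q).coeff c := by
  constructor
  · intro h j _ Q c
    rw [up_zero hne j G P h Q, MonoidAlgebra.coeff_zero, Finsupp.zero_apply]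
    exact dvd_zero _
  · intro h
    have hG : 0 < Nat.card G := Nat.card_pos
    set m := Nat.log ℓ (Nat.card G) with hm
    have h3 : ∀ j ≤ m, ℓ ^ j ≤ Nat.card G := fun j hj =>
      (Nat.pow_le_pow_right hl.out.pos hj).trans (Nat.pow_log_le_self ℓ hG.ne')
    have h1 := tower hne m G P fun j hj Q => by
      have h4 := h j (h3 j hj) Q
      choose f hf using h4
      have := Fintype.ofFinite (Cl p)
      refine ⟨∑ c : Cl p, MonoidAlgebra.single c (f c), ?_⟩
      apply MonoidAlgebra.coeff_injective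
      ext c
      rw [← nsmul_eq_mul, MonoidAlgebra.coeff_smul, MonoidAlgebra.coeff_sum, Finsupp.smul_apply,
        Finsupp.finsetSum_apply, nsmul_eq_mul, hf c]
      simp [Finsupp.single_apply]
    have hcop : (Nat.card (Cl p)).Coprime (ℓ ^ m) :=
      Nat.Coprime.pow_right m ((Nat.Prime.coprime_iff_not_dvd hl.out).mpr hc).symm
    have h2 : Function.Injective (fun c : Cl p => c ^ (ℓ ^ m)) := (powCoprime hcop).injective
    have h5 : ((ℓ ^ (m + 1) : ℕ) : GR p) ∣ psi p (ℓ ^ m) (DD P) := by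
      rw [Nat.cast_pow]; exact h1
    apply MonoidAlgebra.coeff_injective
    ext c
    obtain ⟨u, rfl⟩ := cm_surj c
    rw [MonoidAlgebra.coeff_zero, Finsupp.zero_apply]
    have h6 := coeff_dvd h5 (cm p u ^ (ℓ ^ m))
    rw [coeff_psi h2, coeff_DD] at h6
    rw [coeff_DD]
    have h7 := Mn_le (u : ZMod p) G
    have h8 := (Mn_le (u : ZMod p) (nrm P)).trans (Subgroup.card_le_card_group _)
    have h9 : Nat.card G < ℓ ^ (m + 1) := Nat.lt_pow_succ_log_self hl.out.one_lt _
    apply Int.eq_zero_of_abs_lt_dvd h6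
    rw [abs_lt]
    constructor <;> omega

/-- the number of irreducible characters of `G` whose degree is congruent to `b` times an element
of `ℓ`-power order, up to sign -/
def Sn (p ℓ : ℕ) (b : ZMod p) (G : Type) [Group G] : ℕ :=
  Nat.card {χ : G → ℂ // IsIrrChar χ ∧ ∃ n k : ℕ, χ 1 = n ∧
    ((n : ZMod p) ^ ℓ ^ k = b ^ ℓ ^ k ∨ (n : ZMod p) ^ ℓ ^ k = -(b ^ ℓ ^ k))}

theorem coeff_Sn {ℓ : ℕ} [hl : Fact ℓ.Prime] (G : Type) [Group G] [Finite G] (u : (ZMod p)ˣ)
    {k : ℕ} (hk : Nat.card (Cl p) ≤ k) :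
    (psi p (ℓ ^ k) (Mf p G)).coeff (cm p u ^ ℓ ^ k) = (Sn p ℓ (u : ZMod p) G : ℤ) := by
  have := Fintype.ofFinite G
  rw [Mf_eq]
  unfold Mc Sn
  rw [Pool.Agent.Q90.WR.card_filter_eq, Finset.card_filter, map_sum, MonoidAlgebra.coeff_sum,
    Finsupp.finsetSum_apply]
  push_cast
  refine Finset.sum_congr rfl fun χ hχ => ?_
  obtain ⟨n, -, hn⟩ := irr_deg (mem_Irr.mp hχ)
  rw [hn, wc_nat]
  by_cases h : IsUnit (n : ZMod p)
  · have e1 : psi p (ℓ ^ k) (w p n) = MonoidAlgebra.single (cm p h.unit ^ ℓ ^ k) 1 := by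
      rw [w_unit h]
      unfold psi
      simp [MonoidAlgebra.mapDomain_single]
    rw [e1, MonoidAlgebra.coeff_single, Finsupp.single_apply]
    refine if_congr ?_ rfl rfl
    have e2 : ∀ i : ℕ, cm p h.unit ^ ℓ ^ i = cm p u ^ ℓ ^ i ↔
        ((n : ZMod p) ^ ℓ ^ i = (u : ZMod p) ^ ℓ ^ i ∨
          (n : ZMod p) ^ ℓ ^ i = -((u : ZMod p) ^ ℓ ^ i)) := by
      intro i
      rw [← map_pow, ← map_pow, mk_eq]
      simp
    constructor
    · intro h1
      exact ⟨n, k, rfl, (e2 k).mp h1⟩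
    · rintro ⟨m, i, hm, h1⟩
      have : n = m := by exact_mod_cast hm
      subst this
      have h2 := (e2 i).mpr h1
      have h3 : (cm p h.unit * (cm p u)⁻¹) ^ ℓ ^ i = 1 := by
        rw [mul_pow, inv_pow, h2, mul_inv_cancel]
      have h4 := orderOf_dvd_of_pow_eq_one h3
      obtain ⟨j, -, hj⟩ := (Nat.dvd_prime_pow hl.out).mp h4
      have h5 : j ≤ k := by
        have h6 : orderOf (cm p h.unit * (cm p u)⁻¹) ≤ Nat.card (Cl p) := orderOf_le_card
        rw [hj] at h6
        have h7 : j < ℓ ^ j := Nat.lt_pow_self hl.out.one_lt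
        omega
      have h6 : (cm p h.unit * (cm p u)⁻¹) ^ ℓ ^ k = 1 := by
        apply orderOf_dvd_iff_pow_eq_one.mp
        rw [hj]
        exact pow_dvd_pow _ h5
      rw [mul_pow, inv_pow, mul_inv_eq_one] at h6
      exact h6
  · rw [w_not h, map_zero, MonoidAlgebra.coeff_zero, Finsupp.zero_apply, if_neg]
    rintro ⟨m, i, hm, h1⟩
    have : n = m := by exact_mod_cast hm
    subst this
    apply h
    have h2 : (n : ZMod p) = 0 := by
      by_contra h3
      exact h (isUnit_iff_ne_zero.mpr h3)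
    have h3 : ((n : ZMod p)) ^ ℓ ^ i = 0 := by
      rw [h2, zero_pow (pow_ne_zero _ hl.out.ne_zero)]
    rw [h3] at h1
    have h4 : (u : ZMod p) ^ ℓ ^ i ≠ 0 := pow_ne_zero _ u.ne_zero
    rcases h1 with h1 | h1
    · exact absurd h1.symm h4
    · exact absurd (neg_eq_zero.mp h1.symm) h4

/-- a congruence at one class for all groups implies equality for the cosets of the elements of
`ℓ`-power order -/
theorem coset_of_congr {ℓ : ℕ} [hl : Fact ℓ.Prime] (hne : p ≠ ℓ) (c₀ : Cl p)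
    (h : ∀ (G : Type) [Group G] [Finite G] (P : Sylow p G), (ℓ : ℤ) ∣ (DD P).coeff c₀)
    (G : Type) [Group G] [Finite G] (P : Sylow p G) (u : (ZMod p)ˣ) :
    Sn p ℓ (u : ZMod p) G = Sn p ℓ (u : ZMod p) (nrm P) := by
  have key : (Sn p ℓ (u : ZMod p) G : ℤ) - Sn p ℓ (u : ZMod p) (nrm P) = 0 := by
    apply eq_zero_of_pow hl.out.one_lt
    intro m
    set k := max m (Nat.card (Cl p)) with hk
    have h1 := tower hne k G P fun j _ Q => all_classes hne c₀ h _ Q
    have h3 : ((ℓ ^ (k + 1) : ℕ) : GR p) ∣ psi p (ℓ ^ k) (DD P) := by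
      rw [Nat.cast_pow]; exact h1
    have h4 := coeff_dvd h3 (cm p u ^ ℓ ^ k)
    unfold DD at h4
    rw [map_sub, MonoidAlgebra.coeff_sub, Finsupp.sub_apply, coeff_Sn G u (le_max_right _ _),
      coeff_Sn (nrm P) u (le_max_right _ _)] at h4
    refine dvd_trans ?_ h4
    exact_mod_cast pow_dvd_pow ℓ (by omega)
  omega

end Pool.Agent.H922IN
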