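import Pool.Agent.H922IN.Fin2

/-!
# Characters with few Galois conjugates
-/

set_option autoImplicit false
set_option linter.unusedSectionVars false

open scoped BigOperators Classical

noncomputable section

namespace Pool.Agent.H922IN

open Pool.Agent.Helper884.IC Pool.Agent.R721.CD
open Pool.Agent.Q90.WR (irr_gal)

/-- the Galois conjugates of a function -/
def orb {G : Type} (χ : G → ℂ) : Set (G → ℂ) := {ψ | ∃ σ : ℂ ≃+* ℂ, ψ = fun g => σ (χ g)}

theorem self_orb {G : Type} (χ : G → ℂ) : χ ∈ orb χ := ⟨RingEquiv.refl ℂ, rfl⟩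

theorem orb_eq {G : Type} {χ ψ : G → ℂ} (h : ψ ∈ orb χ) : orb ψ = orb χ := by
  obtain ⟨σ, rfl⟩ := h
  ext φ
  constructor
  · rintro ⟨τ, rfl⟩
    exact ⟨σ.trans τ, rfl⟩
  · rintro ⟨τ, rfl⟩
    refine ⟨σ.symm.trans τ, ?_⟩
    funext g
    simp

/-- counting modulo `ℓ` -/
theorem orb_mod {G : Type} (ℓ : ℕ) (X : Finset (G → ℂ)) (hX : ∀ χ ∈ X, ∀ ψ ∈ orb χ, ψ ∈ X) :
    X.card ≡ (X.filter fun χ => ¬ ℓ ∣ Nat.card (orb χ)).card [MOD ℓ] := by
  have h1 := Finset.card_filter_add_card_filter_not (s := X) (fun χ => ¬ ℓ ∣ Nat.card (orb χ))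
  have h2 : ℓ ∣ (X.filter fun χ => ¬ ¬ ℓ ∣ Nat.card (orb χ)).card := by
    rw [Finset.card_eq_sum_card_image orb]
    refine Finset.dvd_sum fun O hO => ?_
    obtain ⟨χ, hχ, rfl⟩ := Finset.mem_image.mp hO
    rw [Finset.mem_filter, not_not] at hχ
    have h3 : ((X.filter fun χ => ¬ ¬ ℓ ∣ Nat.card (orb χ)).filter fun ψ => orb ψ = orb χ).card =
        Nat.card (orb χ) := by
      refine (Nat.subtype_card _ fun ψ => ?_).symm
      rw [Finset.mem_filter, Finset.mem_filter, not_not]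
      constructor
      · rintro ⟨-, h4⟩
        rw [← h4]
        exact self_orb ψ
      · intro h4
        have h5 := orb_eq h4
        exact ⟨⟨hX χ hχ.1 ψ h4, by rw [h5]; exact hχ.2⟩, h5⟩
    rw [h3]
    exact hχ.2
  rw [← h1]
  exact (Nat.modEq_iff_dvd' (Nat.le_add_right _ _)).mpr (by simpa using h2) |>.symm

/-- the number of irreducible characters of `G` whose degree is congruent to `a` or `-a` and whose
number of Galois conjugates is not divisible by `ℓ` -/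
def Kn (p ℓ : ℕ) (a : ZMod p) (G : Type) [Group G] : ℕ :=
  Nat.card {χ : G → ℂ // IsIrrChar χ ∧
    (∃ n : ℕ, χ 1 = n ∧ ((n : ZMod p) = a ∨ (n : ZMod p) = -a)) ∧ ¬ ℓ ∣ Nat.card (orb χ)}

theorem Kn_mod (p ℓ : ℕ) (a : ZMod p) (G : Type) [Group G] [Finite G] :
    Mn p a G ≡ Kn p ℓ a G [MOD ℓ] := by
  have := Fintype.ofFinite G
  unfold Mn Kn
  rw [Pool.Agent.Q90.WR.card_filter_eq, Pool.Agent.Q90.WR.card_filter_eq, ← Finset.filter_filter]
  apply orb_mod
  intro χ hχ ψ hψ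
  obtain ⟨σ, rfl⟩ := hψ
  rw [Finset.mem_filter, mem_Irr] at hχ ⊢
  refine ⟨irr_gal σ hχ.1, ?_⟩
  obtain ⟨n, hn, h⟩ := hχ.2
  exact ⟨n, by change σ (χ 1) = _; rw [hn, map_natCast], h⟩

end Pool.Agent.H922IN
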