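import Pool.Agent.H922IN.Nrm

/-!
# Character degrees modulo `p` up to sign
-/

set_option autoImplicit false
set_option linter.unusedSectionVars false

open scoped BigOperators Classical

noncomputable section

namespace Pool.Agent.H922IN

open Pool.Agent.Helper884.IC Pool.Agent.R721.CD
open Pool.Agent.Q90.WR (box box_irr sum_Irr_prod)

/-- the residue classes prime to `p` up to sign -/
def Cl (p : ℕ) : Type := (ZMod p)ˣ ⧸ Subgroup.zpowers (-1 : (ZMod p)ˣ)

instance (p : ℕ) : CommGroup (Cl p) :=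
  inferInstanceAs (CommGroup ((ZMod p)ˣ ⧸ Subgroup.zpowers (-1 : (ZMod p)ˣ)))

/-- the class of a unit -/
def cm (p : ℕ) : (ZMod p)ˣ →* Cl p := QuotientGroup.mk' (Subgroup.zpowers (-1 : (ZMod p)ˣ))

/-- the group ring -/
abbrev GR (p : ℕ) : Type := MonoidAlgebra ℤ (Cl p)

variable {p : ℕ}

/-- the class of a natural number, zero if it is not prime to `p` -/
def w (p : ℕ) (n : ℕ) : GR p :=
  if h : IsUnit (n : ZMod p) then MonoidAlgebra.single (cm p h.unit) 1 else 0

theorem w_unit {n : ℕ} (h : IsUnit (n : ZMod p)) :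
    w p n = MonoidAlgebra.single (cm p h.unit) 1 := dif_pos h

theorem w_not {n : ℕ} (h : ¬ IsUnit (n : ZMod p)) : w p n = 0 := dif_neg h

theorem w_mul (m n : ℕ) : w p (m * n) = w p m * w p n := by
  by_cases hm : IsUnit (m : ZMod p)
  · by_cases hn : IsUnit (n : ZMod p)
    · have hmn : IsUnit ((m * n : ℕ) : ZMod p) := by push_cast; exact hm.mul hn
      rw [w_unit hm, w_unit hn, w_unit hmn, MonoidAlgebra.single_mul_single, one_mul]
      congr 1
      rw [← map_mul]
      congr 1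
      apply Units.ext
      simp
    · rw [w_not hn, mul_zero, w_not]
      intro h
      push_cast at h
      exact hn (isUnit_of_mul_isUnit_right h)
  · rw [w_not hm, zero_mul, w_not]
    intro h
    push_cast at h
    exact hm (isUnit_of_mul_isUnit_left h)

theorem w_one : w p 1 = 1 := by
  have h : IsUnit ((1 : ℕ) : ZMod p) := by push_cast; exact isUnit_one
  rw [w_unit h, MonoidAlgebra.one_def]
  congr 1
  have : h.unit = 1 := by
    apply Units.ext; simp
  rw [this, map_one]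

theorem w_prod {ι : Type} (s : Finset ι) (f : ι → ℕ) : w p (∏ i ∈ s, f i) = ∏ i ∈ s, w p (f i) := by
  induction s using Finset.induction_on with
  | empty => simp [w_one]
  | insert a s ha ih => rw [Finset.prod_insert ha, Finset.prod_insert ha, w_mul, ih]

theorem w_pow (n k : ℕ) : w p (n ^ k) = w p n ^ k := by
  induction k with
  | zero => simp [w_one]
  | succ k ih => rw [pow_succ, w_mul, ih, pow_succ]

/-- the class of a complex number -/
def wc (p : ℕ) (z : ℂ) : GR p := w p ⌊z.re⌋₊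

theorem wc_nat (n : ℕ) : wc p (n : ℂ) = w p n := by
  unfold wc
  rw [Complex.natCast_re, Nat.floor_natCast]

/-- the sum of the classes of the degrees -/
def Mc (p : ℕ) (G : Type) [Group G] [Fintype G] : GR p := ∑ χ ∈ Irr G, wc p (χ 1)

theorem Mc_congr {G H : Type} [Group G] [Fintype G] [Group H] [Fintype H] (e : H ≃* G) :
    Mc p H = Mc p G := by
  unfold Mc
  rw [sum_iso e]
  refine Finset.sum_congr rfl fun χ _ => ?_
  beta_reduce
  rw [map_one]

theorem Mc_prod (G H : Type) [Group G] [Fintype G] [Group H] [Fintype H] :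
    Mc p (G × H) = Mc p G * Mc p H := by
  unfold Mc
  rw [sum_Irr_prod, Finset.sum_mul_sum, ← Finset.sum_product']
  refine Finset.sum_congr rfl fun t ht => ?_
  rw [Finset.mem_product, mem_Irr, mem_Irr] at ht
  obtain ⟨m, -, hm⟩ := irr_deg ht.1
  obtain ⟨n, -, hn⟩ := irr_deg ht.2
  have : box t.1 t.2 1 = ((m * n : ℕ) : ℂ) := by
    change t.1 1 * t.2 1 = _
    rw [hm, hn]; push_cast; rfl
  rw [this, wc_nat, w_mul, hm, hn, wc_nat, wc_nat]

/-- the Adams operation -/
def psi (p ℓ : ℕ) : GR p →+* GR p := MonoidAlgebra.mapDomainRingHom ℤ (powMonoidHom ℓ : Cl p →* Cl p)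

theorem psi_w (ℓ n : ℕ) (hl : ℓ ≠ 0) : psi p ℓ (w p n) = w p n ^ ℓ := by
  by_cases h : IsUnit (n : ZMod p)
  · rw [w_unit h, MonoidAlgebra.single_pow, one_pow]
    unfold psi
    simp [MonoidAlgebra.mapDomain_single]
  · rw [w_not h, map_zero, zero_pow hl]

theorem Mc_wr (ℓ : ℕ) [hl : Fact ℓ.Prime] (G : Type) [Group G] [Fintype G] :
    (ℓ : GR p) * Mc p (WrC ℓ G) =
      w p ℓ * (Mc p G ^ ℓ - psi p ℓ (Mc p G)) + (ℓ : GR p) ^ 2 * psi p ℓ (Mc p G) := by
  have h1 := WrC.sum_deg (ℓ := ℓ) (G := G) (wc p)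
  have e1 : (ℓ : GR p) * Mc p (WrC ℓ G) = ℓ • ∑ χ ∈ Irr (WrC ℓ G), wc p (χ 1) := by
    rw [nsmul_eq_mul]; rfl
  rw [e1, h1]
  have e2 : ∀ t ∈ Fintype.piFinset (fun _ : ZMod ℓ => Irr G),
      (if ∀ i, t i = t 0 then (ℓ * ℓ) • wc p (∏ i, t i 1) else wc p (ℓ * ∏ i, t i 1)) =
        w p ℓ * ∏ i, wc p (t i 1) + if ∀ i, t i = t 0 then
          ((ℓ : GR p) ^ 2 - w p ℓ) * wc p (t 0 1) ^ ℓ else 0 := by
    intro t ht
    rw [Fintype.mem_piFinset] at ht
    have hd : ∀ i, ∃ n : ℕ, t i 1 = n := fun i => by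
      obtain ⟨n, -, hn⟩ := irr_deg (mem_Irr.mp (ht i))
      exact ⟨n, hn⟩
    choose d hd using hd
    have e3 : ∏ i, t i 1 = ((∏ i, d i : ℕ) : ℂ) := by
      push_cast
      exact Finset.prod_congr rfl fun i _ => hd i
    have e4 : ∀ i, wc p (t i 1) = w p (d i) := fun i => by rw [hd, wc_nat]
    rw [Finset.prod_congr rfl fun i _ => e4 i, ← w_prod, e3]
    split_ifs with hc
    · have e5 : ∀ i, d i = d 0 := by
        intro i
        have := congrFun (hc i) 1
        rw [hd, hd] at this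
        exact_mod_cast this
      have e6 : w p (∏ i, d i) = wc p (t 0 1) ^ ℓ := by
        rw [Finset.prod_congr rfl fun i _ => e5 i, Finset.prod_const, Finset.card_univ, ZMod.card,
          w_pow, hd, wc_nat]
      rw [wc_nat, e6, nsmul_eq_mul]
      push_cast
      ring
    · have : (ℓ : ℂ) * ((∏ i, d i : ℕ) : ℂ) = ((ℓ * ∏ i, d i : ℕ) : ℂ) := by push_cast; rfl
      rw [this, wc_nat, w_mul, add_zero]
  rw [Finset.sum_congr rfl e2, Finset.sum_add_distrib, ← Finset.mul_sum]
  have e7 : ∑ t ∈ Fintype.piFinset (fun _ : ZMod ℓ => Irr G), ∏ i, wc p (t i 1) = Mc p G ^ ℓ := by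
    rw [← Finset.prod_univ_sum (t := fun _ : ZMod ℓ => Irr G) (f := fun _ χ => wc p (χ 1)),
      Finset.prod_const, Finset.card_univ, ZMod.card]
    rfl
  have e8 : ∑ t ∈ Fintype.piFinset (fun _ : ZMod ℓ => Irr G), (if ∀ i, t i = t 0 then
      ((ℓ : GR p) ^ 2 - w p ℓ) * wc p (t 0 1) ^ ℓ else 0) =
      ((ℓ : GR p) ^ 2 - w p ℓ) * psi p ℓ (Mc p G) := by
    rw [← Finset.sum_filter, ← Finset.mul_sum]
    congr 1
    unfold Mc
    rw [map_sum]
    symm
    refine Finset.sum_bij (fun θ _ => fun _ => θ) ?_ ?_ ?_ ?_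
    · intro θ hθ
      rw [Finset.mem_filter, Fintype.mem_piFinset]
      exact ⟨fun _ => hθ, fun _ => rfl⟩
    · intro θ _ θ' _ h
      exact congrFun h 0
    · intro t ht
      rw [Finset.mem_filter, Fintype.mem_piFinset] at ht
      refine ⟨t 0, ht.1 0, ?_⟩
      funext i
      exact (ht.2 i).symm
    · intro θ hθ
      obtain ⟨n, -, hn⟩ := irr_deg (mem_Irr.mp hθ)
      rw [hn, wc_nat, psi_w _ _ hl.out.ne_zero]
      change w p n ^ ℓ = wc p (θ 1) ^ ℓ
      rw [hn, wc_nat]
  rw [e7, e8]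
  ring

/-- the number of irreducible characters of `G` whose degree is congruent to `a` or `-a` -/
def Mn (p : ℕ) (a : ZMod p) (G : Type) [Group G] : ℕ :=
  Nat.card {χ : G → ℂ // IsIrrChar χ ∧ ∃ n : ℕ, χ 1 = n ∧ ((n : ZMod p) = a ∨ (n : ZMod p) = -a)}

theorem mk_eq {u v : (ZMod p)ˣ} : cm p u = cm p v ↔
    (u : ZMod p) = v ∨ (u : ZMod p) = -v := by
  have h0 : cm p u = cm p v ↔ u⁻¹ * v ∈ Subgroup.zpowers (-1 : (ZMod p)ˣ) := QuotientGroup.eq
  rw [h0]
  constructor
  · intro h
    obtain ⟨k, hk⟩ := h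
    have h1 : (-1 : (ZMod p)ˣ) ^ k = 1 ∨ (-1 : (ZMod p)ˣ) ^ k = -1 := by
      rcases Int.even_or_odd k with h | h
      · left; exact h.neg_one_zpow
      · right; exact h.neg_one_zpow
    have hk' : (-1 : (ZMod p)ˣ) ^ k = u⁻¹ * v := hk
    rcases h1 with h1 | h1
    · left
      rw [h1] at hk'
      have : u = v := by
        have := congrArg (u * ·) hk'
        simpa using this
      rw [this]
    · right
      rw [h1] at hk'
      have : v = -u := by
        have := congrArg (u * ·) hk'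
        simpa using this.symm
      rw [this, Units.val_neg, neg_neg]
  · rintro (h | h)
    · have : u = v := Units.ext h
      rw [this, inv_mul_cancel]
      exact one_mem _
    · have : u = -v := Units.ext (by rw [h, Units.val_neg])
      rw [this]
      refine ⟨1, ?_⟩
      simp

theorem coeff_Mc (G : Type) [Group G] [Fintype G] (u : (ZMod p)ˣ) :
    (Mc p G).coeff (cm p u) = (Mn p (u : ZMod p) G : ℤ) := by
  unfold Mc Mn
  rw [Pool.Agent.Q90.WR.card_filter_eq, Finset.card_filter, MonoidAlgebra.coeff_sum,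
    Finsupp.finsetSum_apply]
  push_cast
  refine Finset.sum_congr rfl fun χ hχ => ?_
  obtain ⟨n, -, hn⟩ := irr_deg (mem_Irr.mp hχ)
  rw [hn, wc_nat]
  by_cases h : IsUnit (n : ZMod p)
  · rw [w_unit h, MonoidAlgebra.coeff_single, Finsupp.single_apply]
    refine if_congr ?_ rfl rfl
    rw [mk_eq]
    constructor
    · intro h1
      exact ⟨n, rfl, by simpa using h1⟩
    · rintro ⟨m, hm, h1⟩
      have : n = m := by exact_mod_cast hm
      subst this
      simpa using h1
  · rw [w_not h, MonoidAlgebra.coeff_zero, Finsupp.zero_apply, if_neg]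
    rintro ⟨m, hm, h1⟩
    have : n = m := by exact_mod_cast hm
    subst this
    apply h
    rcases h1 with h1 | h1
    · rw [h1]; exact u.isUnit
    · rw [h1]; exact u.isUnit.neg

end Pool.Agent.H922IN
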