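import Pool.Agent.H922IN.Wr
import Pool.Agent.Q90.WR.Tower

/-!
# Normalisers of Sylow subgroups in wreath products and direct products
-/

set_option autoImplicit false
set_option linter.unusedSectionVars false

open scoped BigOperators Classical

noncomputable section

namespace Pool.Agent.H922IN

/-- the normaliser of a Sylow subgroup -/
abbrev nrm {p : ℕ} {G : Type} [Group G] (P : Sylow p G) : Subgroup G :=
  Subgroup.normalizer ((P : Subgroup G) : Set G)

theorem mem_norm {G : Type} [Group G] {P : Subgroup G} {x : G} :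
    x ∈ Subgroup.normalizer (P : Set G) ↔ ∀ h, h ∈ P ↔ x * h * x⁻¹ ∈ P := Iff.rfl

namespace WrC

variable {ℓ : ℕ} {G : Type} [hl : Fact ℓ.Prime] [Group G]

/-- the power of a subgroup -/
def pwr (ℓ : ℕ) [Fact ℓ.Prime] (P : Subgroup G) : Subgroup (WrC ℓ G) where
  carrier := {x | x.s = 0 ∧ ∀ i, x.f i ∈ P}
  one_mem' := ⟨rfl, fun _ => P.one_mem⟩
  mul_mem' := by
    intro a b ha hb
    exact ⟨by rw [mul_s, ha.1, hb.1, add_zero], fun i => P.mul_mem (ha.2 i) (hb.2 _)⟩
  inv_mem' := by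
    intro a ha
    exact ⟨by rw [inv_s, ha.1, neg_zero], fun i => P.inv_mem (ha.2 _)⟩

theorem mem_pwr {P : Subgroup G} {x : WrC ℓ G} : x ∈ pwr ℓ P ↔ x.s = 0 ∧ ∀ i, x.f i ∈ P := Iff.rfl

theorem conj_f (x y : WrC ℓ G) (hy : y.s = 0) (i : ZMod ℓ) :
    (x * y * x⁻¹).f i = x.f i * y.f (i + x.s) * (x.f i)⁻¹ := by
  rw [mul_f, mul_f, inv_f, mul_s, hy]
  congr 3
  abel

theorem conj_s (x y : WrC ℓ G) : (x * y * x⁻¹).s = y.s := by
  rw [mul_s, mul_s, inv_s]
  abel

theorem mem_norm_pwr {P : Subgroup G} {x : WrC ℓ G} :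
    x ∈ Subgroup.normalizer (pwr ℓ P : Set (WrC ℓ G)) ↔
      ∀ i, x.f i ∈ Subgroup.normalizer (P : Set G) := by
  constructor
  · intro h i
    rw [mem_norm] at h ⊢
    intro g
    have h1 := h ⟨Function.update (fun _ => 1) (i + x.s) g, 0⟩
    rw [mem_pwr, mem_pwr, conj_s] at h1
    constructor
    · intro hg
      have h2 := (h1.mp ⟨rfl, fun j => by
        by_cases hj : j = i + x.s
        · subst hj; simpa using hg
        · simp [Function.update_of_ne hj, P.one_mem]⟩).2 i
      rw [conj_f _ _ rfl] at h2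
      simpa using h2
    · intro hg
      have h2 := (h1.mpr ⟨rfl, fun j => by
        rw [conj_f _ _ rfl]
        by_cases hj : j = i
        · subst hj; simpa using hg
        · have : j + x.s ≠ i + x.s := fun h => hj (add_right_cancel h)
          simp [Function.update_of_ne this, P.one_mem]⟩).2 (i + x.s)
      simpa using h2
  · intro h
    rw [mem_norm]
    intro y
    rw [mem_pwr, mem_pwr, conj_s]
    constructor
    · rintro ⟨h1, h2⟩
      refine ⟨h1, fun i => ?_⟩
      rw [conj_f _ _ h1]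
      exact (mem_norm.mp (h i) _).mp (h2 _)
    · rintro ⟨h1, h2⟩
      refine ⟨h1, fun i => ?_⟩
      have h3 := h2 (i - x.s)
      rw [conj_f _ _ h1, sub_add_cancel] at h3
      exact (mem_norm.mp (h _) _).mpr h3

/-- the normaliser of a power -/
def normE (P : Subgroup G) : Subgroup.normalizer (pwr ℓ P : Set (WrC ℓ G)) ≃*
    WrC ℓ (Subgroup.normalizer (P : Set G)) where
  toFun x := ⟨fun i => ⟨x.1.f i, mem_norm_pwr.mp x.2 i⟩, x.1.s⟩
  invFun y := ⟨⟨fun i => y.f i, y.s⟩, mem_norm_pwr.mpr fun i => (y.f i).2⟩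
  left_inv _ := rfl
  right_inv _ := rfl
  map_mul' _ _ := rfl

/-- a power of a subgroup as a set -/
def pwrE (P : Subgroup G) : pwr ℓ P ≃ (ZMod ℓ → P) where
  toFun x i := ⟨x.1.f i, x.2.2 i⟩
  invFun f := ⟨⟨fun i => f i, 0⟩, rfl, fun i => (f i).2⟩
  left_inv x := by
    apply Subtype.ext
    have := x.2.1
    ext i
    · rfl
    · exact this.symm
  right_inv _ := rfl

theorem card_pwr (P : Subgroup G) : Nat.card (pwr ℓ P) = Nat.card P ^ ℓ := by
  rw [Nat.card_congr (pwrE P), Nat.card_pi, Finset.prod_const, Finset.card_univ, ZMod.card]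

theorem exists_sylow {p : ℕ} [hp : Fact p.Prime] (hne : p ≠ ℓ) [Finite G] (P : Sylow p G) :
    ∃ Q : Sylow p (WrC ℓ G), (Q : Subgroup (WrC ℓ G)) = pwr ℓ (P : Subgroup G) := by
  refine ⟨Sylow.ofCard (pwr ℓ (P : Subgroup G)) ?_, rfl⟩
  rw [card_pwr, P.card_eq_multiplicity, card, Nat.factorization_mul
    (pow_ne_zero _ Nat.card_pos.ne') hl.out.ne_zero, Nat.factorization_pow, ← pow_mul]
  congr 1
  simp only [Finsupp.coe_add, Finsupp.coe_smul, Pi.add_apply, Pi.smul_apply, smul_eq_mul]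
  rw [Nat.factorization_eq_zero_of_not_dvd (n := ℓ), add_zero, mul_comm]
  intro h
  exact hne ((Nat.prime_dvd_prime_iff_eq hp.out hl.out).mp h)

end WrC

section prod

variable {G H : Type} [Group G] [Group H]

theorem mem_norm_prod {P : Subgroup G} {x : G × H} :
    x ∈ Subgroup.normalizer ((P.prod (⊥ : Subgroup H) : Subgroup (G × H)) : Set (G × H)) ↔
      x.1 ∈ Subgroup.normalizer (P : Set G) := by
  rw [mem_norm, mem_norm]
  constructor
  · intro h g
    have := h (g, 1)
    simpa [Subgroup.mem_prod] using this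
  · rintro h ⟨a, b⟩
    rw [Subgroup.mem_prod, Subgroup.mem_prod, Subgroup.mem_bot, Subgroup.mem_bot]
    have h1 : (x * (a, b) * x⁻¹).2 = 1 ↔ b = 1 := by
      change x.2 * b * x.2⁻¹ = 1 ↔ b = 1
      constructor
      · intro h
        have : b = x.2⁻¹ * (x.2 * b * x.2⁻¹) * x.2 := by group
        rw [this, h]; group
      · intro h; rw [h]; group
    rw [h1]
    exact and_congr_left fun _ => h a

/-- the normaliser of a product with the trivial group -/
def normProdE (P : Subgroup G) :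
    Subgroup.normalizer ((P.prod (⊥ : Subgroup H) : Subgroup (G × H)) : Set (G × H)) ≃*
      (Subgroup.normalizer (P : Set G)) × H where
  toFun x := (⟨x.1.1, mem_norm_prod.mp x.2⟩, x.1.2)
  invFun y := ⟨(y.1.1, y.2), mem_norm_prod.mpr y.1.2⟩
  left_inv _ := rfl
  right_inv _ := rfl
  map_mul' _ _ := rfl

theorem exists_sylow_prod {p : ℕ} [hp : Fact p.Prime] [Finite G] [Finite H]
    (hH : ¬ p ∣ Nat.card H) (P : Sylow p G) :
    ∃ Q : Sylow p (G × H), (Q : Subgroup (G × H)) = (P : Subgroup G).prod ⊥ := by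
  refine ⟨Sylow.ofCard ((P : Subgroup G).prod ⊥) ?_, rfl⟩
  rw [Nat.card_congr (Subgroup.prodEquiv (P : Subgroup G) (⊥ : Subgroup H)).toEquiv, Nat.card_prod,
    Subgroup.card_bot, mul_one, P.card_eq_multiplicity, Nat.card_prod,
    Nat.factorization_mul Nat.card_pos.ne' Nat.card_pos.ne']
  simp only [Finsupp.coe_add, Pi.add_apply]
  rw [Nat.factorization_eq_zero_of_not_dvd hH, add_zero]

end prod

end Pool.Agent.H922IN
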