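import Pool.Agent.H922IN.Glc

/-!
# Summary for the results
-/

set_option autoImplicit false
set_option linter.unusedSectionVars false

open scoped BigOperators Classical

noncomputable section

namespace Pool.Agent.H922IN

open Pool.Agent.Helper884.IC Pool.Agent.R721.CD

variable {p : ℕ} [hp : Fact p.Prime]

theorem card_Cl (hp2 : p ≠ 2) : 2 * Nat.card (Cl p) = p - 1 := by
  have h1 := Subgroup.card_eq_card_quotient_mul_card_subgroup
    (Subgroup.zpowers (-1 : (ZMod p)ˣ))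
  have h2 : Nat.card (ZMod p)ˣ = p - 1 := by
    rw [Nat.card_eq_fintype_card, ZMod.card_units_eq_totient, Nat.totient_prime hp.out]
  have h3 : Nat.card (Subgroup.zpowers (-1 : (ZMod p)ˣ)) = 2 := by
    rw [Nat.card_zpowers]
    apply orderOf_eq_prime
    · simp
    · intro h
      have h4 : (-1 : ZMod p) = 1 := by
        have := congrArg (fun x : (ZMod p)ˣ => (x : ZMod p)) h
        simpa using this
      have : Fact (2 < p) := ⟨lt_of_le_of_ne hp.out.two_le (Ne.symm hp2)⟩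
      exact ZMod.neg_one_ne_one h4
  rw [h2, h3] at h1
  have h4 : Nat.card (Cl p) = Nat.card ((ZMod p)ˣ ⧸ Subgroup.zpowers (-1 : (ZMod p)ˣ)) := rfl
  rw [h4]
  omega

theorem not_dvd_Cl (hp2 : p ≠ 2) {ℓ : ℕ} (h : ¬ ℓ ∣ (p - 1) / 2) : ¬ ℓ ∣ Nat.card (Cl p) := by
  have h1 := card_Cl hp2
  have h2 : (p - 1) / 2 = Nat.card (Cl p) := by omega
  rwa [h2] at h

theorem dvd_iff {ℓ : ℕ} {G : Type} [Group G] [Finite G] (P : Sylow p G) (u : (ZMod p)ˣ) :
    (ℓ : ℤ) ∣ (DD P).coeff (cm p u) ↔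
      Mn p (u : ZMod p) G ≡ Mn p (u : ZMod p) (nrm P) [MOD ℓ] := by
  rw [coeff_DD]
  constructor
  · intro h
    exact (Nat.modEq_iff_dvd.mpr h).symm
  · intro h
    exact Nat.modEq_iff_dvd.mp h.symm

/-- all groups: the bijections exist if and only if one congruence holds -/
theorem main_congr (hp2 : p ≠ 2) {ℓ : ℕ} [hl : Fact ℓ.Prime] (hne : p ≠ ℓ)
    (hd : ¬ ℓ ∣ (p - 1) / 2) {a : ZMod p} (ha : a ≠ 0) :
    (∀ (G : Type) [Group G] [Finite G] (P : Sylow p G), Bij P) ↔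
      ∀ (G : Type) [Group G] [Finite G] (P : Sylow p G),
        Mn p a G ≡ Mn p a (nrm P) [MOD ℓ] := by
  constructor
  · intro h G _ _ P
    have h1 := (bij_iff P).mp (h G P)
    have h2 := (dvd_iff (ℓ := ℓ) P (Units.mk0 a ha)).mp (by
      rw [h1, MonoidAlgebra.coeff_zero, Finsupp.zero_apply]; exact dvd_zero _)
    exact h2
  · intro h G _ _ P
    exact (bij_iff P).mpr (congr_all hne (not_dvd_Cl hp2 hd) (cm p (Units.mk0 a ha))
      (fun G _ _ P => (dvd_iff P (Units.mk0 a ha)).mpr (h G P)) G P)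

/-- the same for the characters with few conjugates -/
theorem congr_K (ℓ : ℕ) (a : ZMod p) (G : Type) [Group G] [Finite G] (P : Sylow p G) :
    Mn p a G ≡ Mn p a (nrm P) [MOD ℓ] ↔ Kn p ℓ a G ≡ Kn p ℓ a (nrm P) [MOD ℓ] := by
  have h1 := Kn_mod p ℓ a G
  have h2 := Kn_mod p ℓ a (nrm P)
  exact ⟨fun h => h1.symm.trans (h.trans h2), fun h => h1.trans (h.trans h2.symm)⟩

/-- one group -/
theorem main_single (hp2 : p ≠ 2) {ℓ : ℕ} [hl : Fact ℓ.Prime] (hne : p ≠ ℓ)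
    (hd : ¬ ℓ ∣ (p - 1) / 2) (G : Type) [Group G] [Finite G] (P : Sylow p G) :
    Bij P ↔ ∀ j, ℓ ^ j ≤ Nat.card G → ∀ (Q : Sylow p (WN ℓ j G)) (b : ZMod p), b ≠ 0 →
      Kn p ℓ b (WN ℓ j G) ≡ Kn p ℓ b (nrm Q) [MOD ℓ] := by
  rw [bij_iff, single hne (not_dvd_Cl hp2 hd)]
  refine forall_congr' fun j => imp_congr_right fun _ => forall_congr' fun Q => ?_
  constructor
  · intro h b hb
    rw [← congr_K]
    exact (dvd_iff Q (Units.mk0 b hb)).mp (h _)
  · intro h c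
    obtain ⟨u, rfl⟩ := cm_surj c
    rw [dvd_iff, congr_K]
    exact h u u.ne_zero

/-- every prime `ℓ`: the McKay equality and the cosets -/
theorem main_any {ℓ : ℕ} [hl : Fact ℓ.Prime] (hne : p ≠ ℓ) {a : ZMod p} (ha : a ≠ 0)
    (h : ∀ (G : Type) [Group G] [Finite G] (P : Sylow p G), Mn p a G ≡ Mn p a (nrm P) [MOD ℓ])
    (G : Type) [Group G] [Finite G] (P : Sylow p G) :
    Nat.card (IrrP p G) = Nat.card (IrrP p (nrm P)) ∧
      ∀ b : ZMod p, b ≠ 0 → Sn p ℓ b G = Sn p ℓ b (nrm P) := by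
  have h1 : ∀ (G : Type) [Group G] [Finite G] (P : Sylow p G),
      (ℓ : ℤ) ∣ (DD P).coeff (cm p (Units.mk0 a ha)) := fun G _ _ P =>
    (dvd_iff P (Units.mk0 a ha)).mpr (h G P)
  exact ⟨mckay_of_congr hne _ h1 G P, fun b hb => coset_of_congr hne _ h1 G P (Units.mk0 b hb)⟩

theorem bij_card {G : Type} [Group G] [Finite G] {P : Sylow p G} (h : Bij P) :
    Nat.card (IrrP p G) = Nat.card (IrrP p (nrm P)) := by
  obtain ⟨f, -⟩ := h
  exact Nat.card_congr f

theorem bij_Mn {G : Type} [Group G] [Finite G] {P : Sylow p G} (h : Bij P) {a : ZMod p}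
    (ha : a ≠ 0) : Mn p a G = Mn p a (nrm P) := by
  have h1 := coeff_DD P (Units.mk0 a ha)
  rw [(bij_iff P).mp h, MonoidAlgebra.coeff_zero, Finsupp.zero_apply] at h1
  have h2 : Mn p a G = Mn p ((Units.mk0 a ha : (ZMod p)ˣ) : ZMod p) G := rfl
  have h3 : Mn p a (nrm P) = Mn p ((Units.mk0 a ha : (ZMod p)ˣ) : ZMod p) (nrm P) := rfl
  omega

/-- one-sided inequalities -/
theorem main_le {a : ZMod p} (ha : a ≠ 0)
    (hM : ∀ (G : Type) [Group G] [Finite G] (P : Sylow p G),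
      Nat.card (IrrP p G) = Nat.card (IrrP p (nrm P)))
    (h : (∀ (G : Type) [Group G] [Finite G] (P : Sylow p G), Mn p a G ≤ Mn p a (nrm P)) ∨
      ∀ (G : Type) [Group G] [Finite G] (P : Sylow p G), Mn p a (nrm P) ≤ Mn p a G)
    (G : Type) [Group G] [Finite G] (P : Sylow p G) : Bij P := by
  rw [bij_iff]
  have h3 : ∀ (G : Type) [Group G], Mn p a G = Mn p ((Units.mk0 a ha : (ZMod p)ˣ) : ZMod p) G :=
    fun _ _ => rfl
  rcases h with h | h
  · refine one_sided (cm p (Units.mk0 a ha)) 1 (Or.inl rfl) hM (fun G _ _ P => ?_) G P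
    rw [coeff_DD, ← h3, ← h3]
    have := h G P
    omega
  · refine one_sided (cm p (Units.mk0 a ha)) (-1) (Or.inr rfl) hM (fun G _ _ P => ?_) G P
    rw [coeff_DD, ← h3, ← h3]
    have := h G P
    omega

end Pool.Agent.H922IN
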