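import Pool.Agent.H922IN.Clg
import Pool.Agent.Q90.WR.Dad

/-!
# Irreducible characters of powers of a finite group
-/

set_option autoImplicit false
set_option linter.unusedSectionVars false

open scoped BigOperators Classical

noncomputable section

namespace Pool.Agent.H922IN

open Pool.Agent.Helper884.IC Pool.Agent.R721.CD
open Pool.Agent.Q90.WR (box box_irr box_cover irr_comp irr_comp_iff irr_of_norm)

/-- the outer product of functions -/
def bs {ι : Type} [Fintype ι] {G : Type} (t : ι → G → ℂ) : (ι → G) → ℂ := fun f => ∏ i, t i (f i)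

theorem one_irr {X : Type} [Group X] [Fintype X] : IsIrrChar (fun _ : X => (1 : ℂ)) := by
  have h1 : IsRepChar (fun _ : X => (1 : ℂ)) := by
    refine ⟨ℂ, inferInstance, inferInstance, inferInstance, oneRep 1, ?_⟩
    funext g
    rw [oneRep_char]
    simp
  refine irr_of_norm h1.isClass ?_ ?_ ⟨1, by norm_num⟩
  · intro ψ hψ
    obtain ⟨n, hn⟩ := mult_nat_rep h1 (IsRepChar.of_irr hψ)
    exact ⟨n, by rw [hn]; push_cast; rfl⟩
  · unfold B
    simp only [mul_one, Finset.sum_const, Finset.card_univ, nsmul_eq_mul]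
    rw [Nat.card_eq_fintype_card, inv_mul_cancel₀]
    exact_mod_cast Fintype.card_ne_zero

variable {G : Type} [Group G] [Fintype G]

/-- splitting off the first factor -/
def consE (n : ℕ) (G : Type) [Group G] : (Fin (n + 1) → G) ≃* G × (Fin n → G) where
  toFun f := (f 0, Fin.tail f)
  invFun x := Fin.cons x.1 x.2
  left_inv f := by simp
  right_inv x := by simp
  map_mul' f g := rfl

theorem bs_cons {n : ℕ} (t : Fin (n + 1) → G → ℂ) :
    bs t = fun f => box (t 0) (bs (Fin.tail t)) (consE n G f) := by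
  funext f
  unfold bs
  rw [Fin.prod_univ_succ]
  rfl

theorem bs_irr_fin : ∀ {n : ℕ} (t : Fin n → G → ℂ), (∀ i, IsIrrChar (t i)) → IsIrrChar (bs t) := by
  intro n
  induction n with
  | zero =>
    intro t _
    have : bs t = fun _ => 1 := by
      funext f
      unfold bs
      simp
    rw [this]
    exact one_irr
  | succ n ih =>
    intro t ht
    rw [bs_cons]
    exact irr_comp (consE n G) (box_irr (ht 0) (ih _ fun i => ht i.succ))

theorem bs_cover_fin : ∀ {n : ℕ} {χ : (Fin n → G) → ℂ}, IsIrrChar χ →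
    ∃ t : Fin n → G → ℂ, (∀ i, IsIrrChar (t i)) ∧ χ = bs t := by
  intro n
  induction n with
  | zero =>
    intro χ hχ
    refine ⟨fun i => i.elim0, fun i => i.elim0, ?_⟩
    have h1 := B_irr hχ (one_irr (X := Fin 0 → G))
    have h2 : B χ (fun _ => (1 : ℂ)) = χ 1 := by
      unfold B
      rw [Nat.card_eq_fintype_card, Fintype.card_fun, Fintype.card_fin, pow_zero, Nat.cast_one,
        inv_one, one_mul]
      rw [Fintype.sum_eq_single (1 : Fin 0 → G) (fun x hx => absurd (Subsingleton.elim x 1) hx),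
        mul_one]
    obtain ⟨m, hm, h3⟩ := irr_deg hχ
    rw [h2, h3] at h1
    split_ifs at h1 with h4
    · rw [h4]
      funext f
      unfold bs
      simp
    · exfalso
      have : m = 0 := by exact_mod_cast h1
      omega
  | succ n ih =>
    intro χ hχ
    obtain ⟨θ, ψ, h1, h2, h3⟩ := box_cover (irr_comp (consE n G).symm hχ)
    obtain ⟨t, h4, rfl⟩ := ih h2
    refine ⟨Fin.cons θ t, ?_, ?_⟩
    · intro i
      refine Fin.cases ?_ ?_ i
      · simpa using h1
      · intro j; simpa using h4 j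
    · rw [bs_cons]
      funext f
      have := congrFun h3 (consE n G f)
      simp only [MulEquiv.symm_apply_apply] at this
      rw [this]
      rfl

section

variable {ι : Type} [Fintype ι]

/-- reindexing -/
def reE {κ : Type} (e : ι ≃ κ) (G : Type) [Group G] : (ι → G) ≃* (κ → G) where
  toFun f := f ∘ e.symm
  invFun f := f ∘ e
  left_inv f := by funext i; simp
  right_inv f := by funext i; simp
  map_mul' _ _ := rfl

theorem bs_re {κ : Type} [Fintype κ] (e : ι ≃ κ) (t : ι → G → ℂ) :
    bs t = fun f => bs (fun k => t (e.symm k)) (reE e G f) := by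
  funext f
  unfold bs
  rw [← Equiv.prod_comp e]
  refine Finset.prod_congr rfl fun i _ => ?_
  change t i (f i) = t (e.symm (e i)) (f (e.symm (e i)))
  rw [Equiv.symm_apply_apply]

theorem bs_irr (t : ι → G → ℂ) (ht : ∀ i, IsIrrChar (t i)) : IsIrrChar (bs t) := by
  rw [bs_re (Fintype.equivFin ι)]
  exact irr_comp (reE (Fintype.equivFin ι) G) (bs_irr_fin _ fun _ => ht _)

theorem bs_cover {χ : (ι → G) → ℂ} (hχ : IsIrrChar χ) :
    ∃ t : ι → G → ℂ, (∀ i, IsIrrChar (t i)) ∧ χ = bs t := by
  set e := Fintype.equivFin ι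
  obtain ⟨t, h1, h2⟩ := bs_cover_fin (irr_comp (reE e G).symm hχ)
  refine ⟨fun i => t (e i), fun _ => h1 _, ?_⟩
  rw [bs_re e]
  funext f
  have := congrFun h2 (reE e G f)
  simp only [MulEquiv.symm_apply_apply] at this
  rw [this]
  simp only [Equiv.apply_symm_apply]

theorem B_bs (t t' : ι → G → ℂ) : B (bs t) (bs t') = ∏ i, B (t i) (t' i) := by
  unfold B bs
  rw [Finset.prod_mul_distrib, Finset.prod_univ_sum, Fintype.piFinset_univ, Finset.prod_const,
    Nat.card_eq_fintype_card, Fintype.card_fun, Finset.card_univ]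
  push_cast
  rw [inv_pow, Nat.card_eq_fintype_card]
  congr 1
  refine Finset.sum_congr rfl fun f _ => ?_
  rw [← Finset.prod_mul_distrib]
  rfl

theorem bs_inj {t t' : ι → G → ℂ} (h1 : ∀ i, IsIrrChar (t i)) (h2 : ∀ i, IsIrrChar (t' i))
    (h : bs t = bs t') : t = t' := by
  have h3 := B_bs t t'
  rw [← h, B_irr (bs_irr t h1) (bs_irr t h1), if_pos rfl] at h3
  funext i
  by_contra hne
  rw [Finset.prod_eq_zero (Finset.mem_univ i) (by rw [B_irr (h1 i) (h2 i), if_neg hne])] at h3
  exact one_ne_zero h3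

theorem sum_bs {M : Type} [AddCommMonoid M] (F : ((ι → G) → ℂ) → M) :
    ∑ χ ∈ Irr (ι → G), F χ = ∑ t ∈ Fintype.piFinset (fun _ : ι => Irr G), F (bs t) := by
  symm
  refine Finset.sum_bij (fun t _ => bs t) ?_ ?_ ?_ ?_
  · intro t ht
    rw [Fintype.mem_piFinset] at ht
    exact mem_Irr.mpr (bs_irr t fun i => mem_Irr.mp (ht i))
  · intro t ht u hu h
    rw [Fintype.mem_piFinset] at ht hu
    exact bs_inj (fun i => mem_Irr.mp (ht i)) (fun i => mem_Irr.mp (hu i)) h
  · intro χ hχ
    obtain ⟨t, h1, rfl⟩ := bs_cover (mem_Irr.mp hχ)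
    exact ⟨t, by rw [Fintype.mem_piFinset]; exact fun i => mem_Irr.mpr (h1 i), rfl⟩
  · intro t _
    rfl

end

/-- sums over irreducible characters and isomorphisms -/
theorem sum_iso {H : Type} [Group H] [Fintype H] (e : H ≃* G) {M : Type} [AddCommMonoid M]
    (F : (H → ℂ) → M) : ∑ χ ∈ Irr H, F χ = ∑ χ ∈ Irr G, F (fun x => χ (e x)) := by
  symm
  refine Finset.sum_bij (fun χ _ => fun x => χ (e x)) ?_ ?_ ?_ ?_
  · intro χ hχ
    exact mem_Irr.mpr (irr_comp e (mem_Irr.mp hχ))
  · intro χ _ ψ _ h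
    funext x
    have := congrFun h (e.symm x)
    simpa using this
  · intro χ hχ
    refine ⟨fun x => χ (e.symm x), mem_Irr.mpr (irr_comp e.symm (mem_Irr.mp hχ)), ?_⟩
    funext x
    simp
  · intro χ _
    rfl

end Pool.Agent.H922IN
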