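import Pool.Agent.H922IN.Mc

/-!
# Congruences along the tower of wreath products
-/

set_option autoImplicit false
set_option linter.unusedSectionVars false

open scoped BigOperators Classical

noncomputable section

namespace Pool.Agent.H922IN

open Pool.Agent.Helper884.IC Pool.Agent.R721.CD

theorem alg_step {A : Type} [CommRing A] {ℓ k : ℕ} {X Y X' Y' P Q U : A} (hU : IsUnit U)
    (hX : (ℓ : A) * X' = U * (X ^ ℓ - P) + (ℓ : A) ^ 2 * P)
    (hY : (ℓ : A) * Y' = U * (Y ^ ℓ - Q) + (ℓ : A) ^ 2 * Q)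
    (h : (ℓ : A) ^ (k + 1) ∣ X - Y) (h' : (ℓ : A) ^ (k + 1) ∣ X' - Y') :
    (ℓ : A) ^ (k + 2) ∣ P - Q := by
  have h0 : (ℓ : A) ∣ X - Y := (dvd_pow_self _ (Nat.succ_ne_zero k)).trans h
  have h1 : (ℓ : A) ^ (k + 2) ∣ X ^ ℓ - Y ^ ℓ := by
    rw [← geom_sum₂_mul, pow_succ' (ℓ : A) (k + 1)]
    exact mul_dvd_mul ((dvd_geom_sum₂_iff_of_dvd_sub h0).mpr (dvd_mul_right _ _)) h
  have h2 : (ℓ : A) ^ (k + 2) ∣ (ℓ : A) * (X' - Y') := by
    rw [pow_succ' (ℓ : A) (k + 1)]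
    exact mul_dvd_mul_left _ h'
  have h3 : (ℓ : A) ^ (k + 2) ∣ (U - (ℓ : A) ^ 2) * (P - Q) := by
    have : (U - (ℓ : A) ^ 2) * (P - Q) = U * (X ^ ℓ - Y ^ ℓ) - (ℓ : A) * (X' - Y') := by
      linear_combination hX - hY
    rw [this]
    exact dvd_sub (h1.mul_left _) h2
  have h4 : IsCoprime ((ℓ : A) ^ (k + 2)) (U - (ℓ : A) ^ 2) := by
    apply IsCoprime.pow_left
    obtain ⟨V, hV⟩ := hU.exists_left_inv
    exact ⟨V * ℓ, V, by linear_combination hV⟩
  exact h4.dvd_of_dvd_mul_left h3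

section tower

variable (ℓ : ℕ) [hl : Fact ℓ.Prime]

/-- iterated wreath products with the cyclic group of order `ℓ` -/
def WN : ℕ → Type → Type
  | 0, G => G
  | n + 1, G => WN n (WrC ℓ G)

/-- the group structure -/
@[implicit_reducible]
def groupWN : (n : ℕ) → (G : Type) → Group G → Group (WN ℓ n G)
  | 0, _, i => i
  | n + 1, G, _ => groupWN n (WrC ℓ G) inferInstance

instance (n : ℕ) (G : Type) [i : Group G] : Group (WN ℓ n G) := groupWN ℓ n G i

theorem finite_WN : ∀ (n : ℕ) (G : Type) [Finite G], Finite (WN ℓ n G)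
  | 0, _, i => i
  | n + 1, G, _ => finite_WN n (WrC ℓ G)

instance (n : ℕ) (G : Type) [Finite G] : Finite (WN ℓ n G) := finite_WN ℓ n G

end tower

variable {p ℓ : ℕ} [hp : Fact p.Prime] [hl : Fact ℓ.Prime]

theorem psi_psi (m n : ℕ) (x : GR p) : psi p m (psi p n x) = psi p (m * n) x := by
  unfold psi
  rw [← RingHom.comp_apply, ← MonoidAlgebra.mapDomainRingHom_comp]
  congr 2
  ext c
  simp only [MonoidHom.comp_apply, powMonoidHom_apply]
  rw [← pow_mul, mul_comm]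

theorem w_isUnit {n : ℕ} (h : ¬ p ∣ n) : IsUnit (w p n) := by
  have h1 : IsUnit (n : ZMod p) := by
    rw [isUnit_iff_ne_zero, Ne, ZMod.natCast_eq_zero_iff]
    exact h
  rw [w_unit h1]
  rw [isUnit_iff_exists_inv]
  refine ⟨MonoidAlgebra.single (cm p h1.unit)⁻¹ 1, ?_⟩
  rw [MonoidAlgebra.single_mul_single, mul_inv_cancel, one_mul, MonoidAlgebra.one_def]

/-- the sum of the classes of the degrees, for finite groups -/
def Mf (p : ℕ) (G : Type) [Group G] [Finite G] : GR p := @Mc p G _ (Fintype.ofFinite G)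

theorem Mf_eq (G : Type) [Group G] [i : Fintype G] : Mf p G = Mc p G := by
  unfold Mf
  have : Fintype.ofFinite G = i := Subsingleton.elim _ _
  rw [this]

theorem Mf_congr {G H : Type} [Group G] [Finite G] [Group H] [Finite H] (e : H ≃* G) :
    Mf p H = Mf p G := @Mc_congr p G H _ (Fintype.ofFinite G) _ (Fintype.ofFinite H) e

theorem Mf_prod (G H : Type) [Group G] [Finite G] [Group H] [Finite H] :
    Mf p (G × H) = Mf p G * Mf p H := by
  have := Fintype.ofFinite G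
  have := Fintype.ofFinite H
  rw [Mf_eq, Mf_eq, Mf_eq, Mc_prod]

theorem Mf_wr (G : Type) [Group G] [Finite G] :
    (ℓ : GR p) * Mf p (WrC ℓ G) =
      w p ℓ * (Mf p G ^ ℓ - psi p ℓ (Mf p G)) + (ℓ : GR p) ^ 2 * psi p ℓ (Mf p G) := by
  have := Fintype.ofFinite G
  rw [Mf_eq, Mf_eq, Mc_wr]

/-- the difference for a group and the normaliser of a Sylow subgroup -/
def DD {G : Type} [Group G] [Finite G] (P : Sylow p G) : GR p := Mf p G - Mf p (nrm P)

theorem DD_indep {G : Type} [Group G] [Finite G] (P Q : Sylow p G) : DD P = DD Q := by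
  obtain ⟨e⟩ := Pool.Agent.Q90.WR.norm_equiv P Q
  unfold DD
  rw [Mf_congr e]

theorem wr_pair (hne : p ≠ ℓ) {G : Type} [Group G] [Finite G] (P : Sylow p G) :
    ∃ Q : Sylow p (WrC ℓ G), Mf p (nrm Q) = Mf p (WrC ℓ (nrm P)) := by
  obtain ⟨Q, hQ⟩ := WrC.exists_sylow hne P
  refine ⟨Q, ?_⟩
  have e : Nonempty (nrm Q ≃* WrC ℓ (nrm P)) := by
    unfold nrm
    rw [hQ]
    exact ⟨WrC.normE _⟩
  obtain ⟨e⟩ := e
  exact Mf_congr e

/-- divisibility along the tower -/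
theorem tower (hne : p ≠ ℓ) : ∀ (m : ℕ) (G : Type) [Group G] [Finite G] (P : Sylow p G),
    (∀ j ≤ m, ∀ Q : Sylow p (WN ℓ j G), (ℓ : GR p) ∣ DD Q) →
      (ℓ : GR p) ^ (m + 1) ∣ psi p (ℓ ^ m) (DD P) := by
  have hu : IsUnit (w p ℓ) := w_isUnit fun h =>
    hne ((Nat.prime_dvd_prime_iff_eq hp.out hl.out).mp h)
  intro m
  induction m with
  | zero =>
    intro G _ _ P h
    have h1 := h 0 le_rfl P
    rw [zero_add, pow_one, pow_zero]
    have h2 : (ℓ : GR p) = psi p 1 (ℓ : GR p) := by rw [map_natCast]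
    rw [h2]
    exact map_dvd (psi p 1) h1
  | succ m ih =>
    intro G _ _ P h
    have h1 := ih G P fun j hj => h j (by omega)
    obtain ⟨Q, hQ⟩ := wr_pair hne P
    have h2 := ih (WrC ℓ G) Q fun j hj => h (j + 1) (by omega)
    unfold DD at h1 h2 ⊢
    rw [map_sub] at h1 h2 ⊢
    rw [hQ] at h2
    have e1 := congrArg (psi p (ℓ ^ m)) (Mf_wr (p := p) (ℓ := ℓ) G)
    have e2 := congrArg (psi p (ℓ ^ m)) (Mf_wr (p := p) (ℓ := ℓ) (nrm P))
    simp only [map_add, map_mul, map_sub, map_pow, map_natCast, psi_psi, ← pow_succ] at e1 e2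
    exact alg_step (hu.map (psi p (ℓ ^ m))) e1 e2 h1 h2

end Pool.Agent.H922IN
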