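import Pool.Agent.H922IN.Pow

/-!
# The wreath product of a finite group with a cyclic group of prime order: characters
-/

set_option autoImplicit false
set_option linter.unusedSectionVars false

open scoped BigOperators Classical

noncomputable section

namespace Pool.Agent.H922IN

open Pool.Agent.Helper884.IC Pool.Agent.R721.CD
open Pool.Agent.Q90.WR (irr_comp irr_comp_iff irr_of_norm)

/-- the wreath product of `G` with the cyclic group of order `ℓ` -/
@[ext]
structure WrC (ℓ : ℕ) (G : Type) : Type where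
  /-- the element of the base group -/
  f : ZMod ℓ → G
  /-- the rotation -/
  s : ZMod ℓ

namespace WrC

variable {ℓ : ℕ} {G : Type}

/-- the underlying set -/
def eqv : WrC ℓ G ≃ (ZMod ℓ → G) × ZMod ℓ where
  toFun x := (x.f, x.s)
  invFun x := ⟨x.1, x.2⟩
  left_inv _ := rfl
  right_inv _ := rfl

variable [hl : Fact ℓ.Prime]

instance [Finite G] : Finite (WrC ℓ G) := Finite.of_equiv _ eqv.symm

instance [Fintype G] : Fintype (WrC ℓ G) := Fintype.ofEquiv _ eqv.symm

variable [Group G]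

instance : Mul (WrC ℓ G) := ⟨fun x y => ⟨fun i => x.f i * y.f (i + x.s), x.s + y.s⟩⟩

instance : One (WrC ℓ G) := ⟨⟨fun _ => 1, 0⟩⟩

instance : Inv (WrC ℓ G) := ⟨fun x => ⟨fun i => (x.f (i - x.s))⁻¹, -x.s⟩⟩

theorem mul_f (x y : WrC ℓ G) (i : ZMod ℓ) : (x * y).f i = x.f i * y.f (i + x.s) := rfl
theorem mul_s (x y : WrC ℓ G) : (x * y).s = x.s + y.s := rfl
theorem one_f (i : ZMod ℓ) : (1 : WrC ℓ G).f i = 1 := rfl
theorem one_s : (1 : WrC ℓ G).s = 0 := rfl
theorem inv_f (x : WrC ℓ G) (i : ZMod ℓ) : (x⁻¹).f i = (x.f (i - x.s))⁻¹ := rfl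
theorem inv_s (x : WrC ℓ G) : (x⁻¹).s = -x.s := rfl

instance : Group (WrC ℓ G) where
  mul_assoc x y z := by
    ext i
    · simp only [mul_f, mul_s, mul_assoc, add_assoc]
    · simp only [mul_s, add_assoc]
  one_mul x := by
    ext i
    · simp only [mul_f, one_f, one_s, one_mul, add_zero]
    · simp only [mul_s, one_s, zero_add]
  mul_one x := by
    ext i
    · simp only [mul_f, one_f, mul_one]
    · simp only [mul_s, one_s, add_zero]
  inv_mul_cancel x := by
    ext i
    · simp only [mul_f, inv_f, inv_s, one_f, ← sub_eq_add_neg, inv_mul_cancel]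
    · simp only [mul_s, inv_s, one_s, neg_add_cancel]

theorem card [Finite G] : Nat.card (WrC ℓ G) = Nat.card G ^ ℓ * ℓ := by
  rw [Nat.card_congr eqv, Nat.card_prod, Nat.card_zmod, Nat.card_pi, Finset.prod_const,
    Finset.card_univ, ZMod.card]

/-- the rotation, as a homomorphism -/
def rot : WrC ℓ G →* Multiplicative (ZMod ℓ) where
  toFun x := Multiplicative.ofAdd x.s
  map_one' := rfl
  map_mul' _ _ := rfl

/-- the base group -/
def bse (ℓ : ℕ) [Fact ℓ.Prime] (G : Type) [Group G] : Subgroup (WrC ℓ G) := rot.ker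

theorem mem_bse {x : WrC ℓ G} : x ∈ bse ℓ G ↔ x.s = 0 := by
  unfold bse
  rw [MonoidHom.mem_ker]
  exact Iff.rfl

instance : (bse ℓ G).Normal := MonoidHom.normal_ker _

/-- the base group is a power of `G` -/
def bseE : bse ℓ G ≃* (ZMod ℓ → G) where
  toFun x := x.1.f
  invFun f := ⟨⟨f, 0⟩, mem_bse.mpr rfl⟩
  left_inv x := by
    apply Subtype.ext
    have := mem_bse.mp x.2
    ext i
    · rfl
    · exact this.symm
  right_inv _ := rfl
  map_mul' x y := by
    funext i
    change x.1.f i * y.1.f (i + x.1.s) = x.1.f i * y.1.f i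
    rw [mem_bse.mp x.2, add_zero]

/-- the linear character -/
def lam (ℓ : ℕ) [Fact ℓ.Prime] (G : Type) [Group G] : WrC ℓ G →* ℂˣ :=
  ((ZMod.stdAddChar (N := ℓ)).toMonoidHom.comp rot).toHomUnits

theorem lam_eq (x : WrC ℓ G) : ((lam ℓ G x : ℂˣ) : ℂ) = ZMod.stdAddChar (N := ℓ) x.s := rfl

theorem isPI [Fintype G] : PI (bse ℓ G) ℓ (lam ℓ G) where
  prime := hl.out
  ker x := by
    rw [mem_bse, ← Units.val_inj, lam_eq, Units.val_one]
    constructor
    · intro h
      rw [h, AddChar.map_zero_eq_one]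
    · intro h
      apply ZMod.injective_stdAddChar (N := ℓ)
      rw [h, AddChar.map_zero_eq_one]
  pow x := by
    rw [← Units.val_inj, Units.val_pow_eq_pow_val, lam_eq, Units.val_one, ← AddChar.map_nsmul_eq_pow]
    have : ℓ • x.s = 0 := by
      rw [nsmul_eq_mul, ZMod.natCast_self, zero_mul]
    rw [this, AddChar.map_zero_eq_one]
  card := by
    rw [card, Nat.card_congr (bseE (ℓ := ℓ) (G := G)).toEquiv, Nat.card_pi, Finset.prod_const,
      Finset.card_univ, ZMod.card, mul_comm]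

section chars

variable [Fintype G]

/-- the character of the base group belonging to a family of characters of `G` -/
def bc (t : ZMod ℓ → G → ℂ) : bse ℓ G → ℂ := fun x => bs t (bseE x)

theorem bc_irr {t : ZMod ℓ → G → ℂ} (ht : ∀ i, IsIrrChar (t i)) : IsIrrChar (bc t) :=
  irr_comp bseE (bs_irr t ht)

theorem bc_inj {t t' : ZMod ℓ → G → ℂ} (h1 : ∀ i, IsIrrChar (t i)) (h2 : ∀ i, IsIrrChar (t' i))
    (h : bc t = bc t') : t = t' := by
  apply bs_inj h1 h2
  funext f
  have := congrFun h ((bseE (ℓ := ℓ) (G := G)).symm f)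
  unfold bc at this
  simpa using this

theorem cj_bc {t : ZMod ℓ → G → ℂ} (ht : ∀ i, IsIrrChar (t i)) (x : WrC ℓ G) :
    cj x (bc t) = bc (fun i => t (i - x.s)) := by
  funext n
  have h1 : bseE (MulAut.conjNormal x n : bse ℓ G) =
      fun i => x.f i * n.1.f (i + x.s) * (x.f i)⁻¹ := by
    funext i
    change ((MulAut.conjNormal x n : bse ℓ G) : WrC ℓ G).f i = _
    rw [MulAut.conjNormal_apply, mul_f, mul_f, inv_f, mul_s, mem_bse.mp n.2]
    congr 3
    abel
  unfold cj bc
  rw [h1]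
  unfold bs
  have h2 : ∀ i, t i (x.f i * n.1.f (i + x.s) * (x.f i)⁻¹) = t i (n.1.f (i + x.s)) :=
    fun i => (ht i).isClass _ _
  rw [Finset.prod_congr rfl fun i _ => h2 i]
  rw [← Equiv.prod_comp (Equiv.addRight x.s) (fun i => t (i - x.s) (bseE n i))]
  refine Finset.prod_congr rfl fun i _ => ?_
  simp only [Equiv.coe_addRight, add_sub_cancel_right]
  rfl

theorem inv_bc {t : ZMod ℓ → G → ℂ} (ht : ∀ i, IsIrrChar (t i)) :
    IsInv (K := WrC ℓ G) (bc t) ↔ ∀ i, t i = t 0 := by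
  constructor
  · intro h i
    have h1 := h ⟨fun _ => 1, i⟩
    rw [cj_bc ht] at h1
    have h2 := bc_inj (fun j => ht _) ht h1
    have h3 := congrFun h2 i
    simp only [sub_self] at h3
    exact h3.symm
  · intro h x
    rw [cj_bc ht]
    congr 1
    funext i
    rw [h, h i]

theorem sum_bse {M : Type} [AddCommMonoid M] (F : (bse ℓ G → ℂ) → M) :
    ∑ θ ∈ Irr (bse ℓ G), F θ = ∑ t ∈ Fintype.piFinset (fun _ : ZMod ℓ => Irr G), F (bc t) := by
  rw [sum_iso bseE]
  convert sum_bs (ι := ZMod ℓ) (G := G) (fun χ => F (fun x => χ (bseE x))) using 2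
  · ext χ
    simp only [mem_Irr]
  · ext t
    simp only [Fintype.mem_piFinset]
  · rfl

/-- sums over the irreducible characters of the wreath product -/
theorem sum_Irr {M : Type} [AddCommMonoid M] (F : (WrC ℓ G → ℂ) → M) :
    ℓ • ∑ χ ∈ Irr (WrC ℓ G), F χ = ∑ t ∈ Fintype.piFinset (fun _ : ZMod ℓ => Irr G),
      (if ∀ i, t i = t 0 then ℓ else 1) •
        ∑ χ ∈ (Irr (WrC ℓ G)).filter (fun χ => mm χ (bc t) ≠ 0), F χ := by
  rw [isPI.sum_Irr, sum_bse]
  refine Finset.sum_congr rfl fun t ht => ?_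
  rw [Fintype.mem_piFinset] at ht
  congr 1
  exact if_congr (inv_bc fun i => mem_Irr.mp (ht i)) rfl rfl

theorem bc_one (t : ZMod ℓ → G → ℂ) : bc t 1 = ∏ i, t i 1 := by
  unfold bc
  rw [map_one]
  rfl

/-- sums of functions of the degrees -/
theorem sum_deg {M : Type} [AddCommMonoid M] (F : ℂ → M) :
    ℓ • ∑ χ ∈ Irr (WrC ℓ G), F (χ 1) = ∑ t ∈ Fintype.piFinset (fun _ : ZMod ℓ => Irr G),
      if ∀ i, t i = t 0 then (ℓ * ℓ) • F (∏ i, t i 1) else F (ℓ * ∏ i, t i 1) := by
  rw [sum_Irr]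
  refine Finset.sum_congr rfl fun t ht => ?_
  rw [Fintype.mem_piFinset] at ht
  have ht' := fun i => mem_Irr.mp (ht i)
  have h1 := bc_irr ht'
  by_cases hc : ∀ i, t i = t 0
  · have hi := (inv_bc ht').mpr hc
    rw [if_pos hc, if_pos hc, Finset.sum_congr rfl (g := fun _ => F (∏ i, t i 1)),
      Finset.sum_const, isPI.card_inv h1 hi, mul_smul]
    intro χ hχ
    rw [Finset.mem_filter] at hχ
    rw [(isPI.mm_inv (mem_Irr.mp hχ.1) h1 hi hχ.2).2, bc_one]
  · have hi := fun h => hc ((inv_bc ht').mp h)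
    rw [if_neg hc, if_neg hc, one_smul, Finset.sum_congr rfl (g := fun _ => F (ℓ * ∏ i, t i 1)),
      Finset.sum_const, isPI.card_not_inv h1 hi, one_smul]
    intro χ hχ
    rw [Finset.mem_filter] at hχ
    rw [(isPI.below (mem_Irr.mp hχ.1) h1 hi hχ.2).2, bc_one]

end chars

end WrC

end Pool.Agent.H922IN
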